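import Pool.Agent.H325Gr.Mcs

/-!
# Families of simple polygons: canonical families of homeomorphisms
-/

set_option autoImplicit false

namespace H325Gr

open KN Filter Topology Set

theorem isClosed_ps {n : ℕ} (p : Poly n) : IsClosed (ps (List.ofFn p)) := by
  have : ps (List.ofFn p) = ⋃ i : Fin (n + 1), (fun u : ℝ => pt p i u) '' Icc (0 : ℝ) 1 := by
    ext x
    rw [mem_ps]
    simp only [mem_iUnion, mem_image, mem_Icc]
    constructor
    · rintro ⟨i, u, hu, rfl⟩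
      exact ⟨i, u, hu, rfl⟩
    · rintro ⟨i, u, hu, rfl⟩
      exact ⟨i, u, hu, rfl⟩
  rw [this]
  apply isClosed_iUnion_of_finite
  intro i
  apply IsCompact.isClosed
  apply isCompact_Icc.image
  unfold pt lerp
  fun_prop

theorem good_near {n : ℕ} (v0 : V) (p0 : Poly n) (hs : Simple (List.ofFn p0))
    (hv : v0 ∉ ps (List.ofFn p0)) :
    ∃ η : ℝ, 0 < η ∧ ∀ p q : Poly n, ‖p - p0‖ ≤ η → ‖q - p‖ ≤ η → Good v0 p q := by
  obtain ⟨C, hC, H⟩ := T_lip_proof T_seg2_proof n p0 hs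
  -- the estimate for displacement vectors
  have H' : ∀ (d : Poly n) (i j : Fin (n + 1)) (u v : ℝ), 0 ≤ u → u ≤ 1 → 0 ≤ v → v ≤ 1 →
      ‖pt d i u - pt d j v‖ ≤ C * ‖d‖ * ‖pt p0 i u - pt p0 j v‖ := by
    intro d i j u v hu0 hu1 hv0 hv1
    have h1 := H (p0 + d) ‖d‖ (fun i => by
      have : (p0 + d) i - p0 i = d i := by simp
      rw [this]
      exact norm_le_pi_norm d i) i j u v hu0 hu1 hv0 hv1
    have e : ∀ (i : Fin (n + 1)) (u : ℝ),
        lerp ((p0 + d) i) ((p0 + d) (i + 1)) u - lerp (p0 i) (p0 (i + 1)) u = pt d i u := by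
      intro i u
      have := pt_sub (p0 + d) p0 i u
      rw [add_sub_cancel_left] at this
      exact this
    rw [e, e] at h1
    exact h1
  -- the distance to v0
  obtain ⟨m, hm, hm'⟩ : ∃ m : ℝ, 0 < m ∧ ∀ (i : Fin (n + 1)) (u : ℝ), 0 ≤ u → u ≤ 1 →
      m ≤ ‖pt p0 i u - v0‖ := by
    have hc := isClosed_ps p0
    have h1 : v0 ∈ (ps (List.ofFn p0))ᶜ := hv
    obtain ⟨m, hm, hb⟩ := Metric.isOpen_iff.1 hc.isOpen_compl v0 h1
    refine ⟨m, hm, fun i u hu0 hu1 => ?_⟩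
    by_contra hlt
    push Not at hlt
    have h2 : pt p0 i u ∈ Metric.ball v0 m := by
      rw [Metric.mem_ball, dist_eq_norm]
      exact hlt
    exact hb h2 ((mem_ps p0 _).2 ⟨i, u, ⟨hu0, hu1⟩, rfl⟩)
  refine ⟨min (1 / (4 * C)) (m / 4), by positivity, fun p q hp hq => ?_⟩
  have hp1 : C * ‖p - p0‖ ≤ 1 / 4 := by
    have := hp.trans (min_le_left _ _)
    calc C * ‖p - p0‖ ≤ C * (1 / (4 * C)) := mul_le_mul_of_nonneg_left this hC.le
      _ = 1 / 4 := by field_simp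
  have hq1 : C * ‖q - p‖ ≤ 1 / 4 := by
    have := hq.trans (min_le_left _ _)
    calc C * ‖q - p‖ ≤ C * (1 / (4 * C)) := mul_le_mul_of_nonneg_left this hC.le
      _ = 1 / 4 := by field_simp
  have hp2 := hp.trans (min_le_right _ _)
  have hq2 := hq.trans (min_le_right _ _)
  constructor
  · intro i j u v hu0 hu1 hv0 hv1
    have h1 := H' (p - p0) i j u v hu0 hu1 hv0 hv1
    have h2 := H' (q - p) i j u v hu0 hu1 hv0 hv1
    have e : pt p0 i u - pt p0 j v = (pt p i u - pt p j v) - (pt (p - p0) i u - pt (p - p0) j v) := by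
      rw [← pt_sub, ← pt_sub]
      abel
    have h3 : ‖pt p0 i u - pt p0 j v‖ ≤ ‖pt p i u - pt p j v‖ +
        ‖pt (p - p0) i u - pt (p - p0) j v‖ := by
      rw [e]
      exact norm_sub_le _ _
    have h0 : 0 ≤ ‖pt p0 i u - pt p0 j v‖ := norm_nonneg _
    have h4 : ‖pt (p - p0) i u - pt (p - p0) j v‖ ≤ 1 / 4 * ‖pt p0 i u - pt p0 j v‖ :=
      h1.trans (mul_le_mul_of_nonneg_right hp1 h0)
    have h5 : ‖pt (q - p) i u - pt (q - p) j v‖ ≤ 1 / 4 * ‖pt p0 i u - pt p0 j v‖ :=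
      h2.trans (mul_le_mul_of_nonneg_right hq1 h0)
    linarith
  · intro i u hu0 hu1
    have h1 := hm' i u hu0 hu1
    have h2 : ‖pt (q - p) i u‖ ≤ m / 4 := (pt_bound _ _ _ hu0 hu1).trans hq2
    have h3 : ‖pt (p - p0) i u‖ ≤ m / 4 := (pt_bound _ _ _ hu0 hu1).trans hp2
    have h4 : ‖pt p0 i u - v0‖ ≤ ‖pt p i u - v0‖ + ‖pt (p - p0) i u‖ := by
      have e : pt p0 i u - v0 = (pt p i u - v0) - pt (p - p0) i u := by
        rw [← pt_sub]
        abel
      rw [e]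
      exact norm_sub_le _ _
    linarith

theorem good_unif {n : ℕ} (v0 : V) (K : Set (Poly n)) (hK : IsCompact K)
    (hs : ∀ p ∈ K, Simple (List.ofFn p) ∧ v0 ∉ ps (List.ofFn p)) :
    ∃ η : ℝ, 0 < η ∧ ∀ p ∈ K, ∀ q : Poly n, ‖q - p‖ ≤ η → Good v0 p q := by
  refine hK.induction_on (p := fun K => ∃ η : ℝ, 0 < η ∧ ∀ p ∈ K, ∀ q : Poly n,
    ‖q - p‖ ≤ η → Good v0 p q) ?_ ?_ ?_ ?_
  · exact ⟨1, one_pos, fun p hp => absurd hp (notMem_empty p)⟩
  · rintro s t hst ⟨η, hη, h⟩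
    exact ⟨η, hη, fun p hp => h p (hst hp)⟩
  · rintro s t ⟨η, hη, h⟩ ⟨η', hη', h'⟩
    refine ⟨min η η', lt_min hη hη', fun p hp q hq => ?_⟩
    rcases hp with hp | hp
    · exact h p hp q (hq.trans (min_le_left _ _))
    · exact h' p hp q (hq.trans (min_le_right _ _))
  · intro p0 hp0
    obtain ⟨η, hη, h⟩ := good_near v0 p0 (hs p0 hp0).1 (hs p0 hp0).2
    refine ⟨Metric.closedBall p0 η, mem_nhdsWithin_of_mem_nhds (Metric.closedBall_mem_nhds p0 hη),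
      η, hη, fun p hp q hq => ?_⟩
    rw [Metric.mem_closedBall, dist_eq_norm] at hp
    exact h p q hp hq

/-- the composition of many small steps -/
theorem steps {n : ℕ} (v0 : V) (P : ℝ × ℝ → Poly n) (hP : Continuous P)
    (h01 : ∀ s, P (s, 0) = P (s, 1)) (N : ℕ)
    (hG : ∀ (m : ℕ) (t : ℝ), m < N → Good v0 (P ((m : ℝ) / N, t)) (P (((m + 1 : ℕ) : ℝ) / N, t))) :
    ∀ m : ℕ, m ≤ N → ∃ E : ℝ × V → V, Continuous E ∧
      (∀ t, ∃ h : V ≃ₜ V, ∀ x, h x = E (t, x)) ∧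
      (∀ (t : ℝ) (i : Fin (n + 1)) (u : ℝ), 0 ≤ u → u ≤ 1 →
        E (t, pt (P (0, t)) i u) = pt (P ((m : ℝ) / N, t)) i u) ∧
      (∀ t, E (t, v0) = v0) ∧ ∀ x, E (0, x) = E (1, x) := by
  obtain ⟨F, hF, hFh, hFg⟩ := mcs_family n v0
  intro m
  induction m with
  | zero =>
    intro _
    refine ⟨fun z => z.2, continuous_snd, fun t => ⟨Homeomorph.refl V, fun x => rfl⟩, ?_, ?_, ?_⟩
    · intro t i u _ _
      simp
    · intro t; rfl
    · intro x; rfl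
  | succ m ih =>
    intro hm
    obtain ⟨E, hE, hEh, hEp, hEv, hE01⟩ := ih (by omega)
    refine ⟨fun z => F ((P ((m : ℝ) / N, z.1), P (((m + 1 : ℕ) : ℝ) / N, z.1)), E z),
      ?_, ?_, ?_, ?_, ?_⟩
    · fun_prop
    · intro t
      obtain ⟨h1, hh1⟩ := hEh t
      obtain ⟨h2, hh2⟩ := hFh (P ((m : ℝ) / N, t), P (((m + 1 : ℕ) : ℝ) / N, t))
      refine ⟨h1.trans h2, fun x => ?_⟩
      rw [Homeomorph.trans_apply, hh1, hh2]
    · intro t i u hu0 hu1
      simp only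
      rw [hEp t i u hu0 hu1]
      exact (hFg _ _ (hG m t (by omega))).1 i u hu0 hu1
    · intro t
      simp only
      rw [hEv]
      exact (hFg _ _ (hG m t (by omega))).2
    · intro x
      simp only
      rw [hE01 x, h01, h01]

theorem core {n : ℕ} (v0 : V) (P : ℝ × ℝ → Poly n) (hP : UniformContinuous P)
    (hK : IsCompact (range P)) (hs : ∀ z, Simple (List.ofFn (P z)) ∧ v0 ∉ ps (List.ofFn (P z)))
    (h01 : ∀ s, P (s, 0) = P (s, 1)) :
    ∃ E : ℝ × V → V, Continuous E ∧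
      (∀ t, ∃ h : V ≃ₜ V, ∀ x, h x = E (t, x)) ∧
      (∀ (t : ℝ) (i : Fin (n + 1)) (u : ℝ), 0 ≤ u → u ≤ 1 →
        E (t, pt (P (0, t)) i u) = pt (P (1, t)) i u) ∧
      (∀ t, E (t, v0) = v0) ∧ ∀ x, E (0, x) = E (1, x) := by
  obtain ⟨η, hη, hg⟩ := good_unif v0 (range P) hK (by
    rintro _ ⟨z, rfl⟩
    exact hs z)
  obtain ⟨δ, hδ, hd⟩ := Metric.uniformContinuous_iff.1 hP η hη
  obtain ⟨N, hN⟩ := exists_nat_gt (1 / δ)
  have hN0 : (0 : ℝ) < N := lt_trans (by positivity) hN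
  have hNδ : 1 / (N : ℝ) < δ := by
    rw [div_lt_iff₀ hN0]
    rw [div_lt_iff₀ hδ] at hN
    linarith
  have h := steps v0 P hP.continuous h01 N (by
    intro m t hm
    apply hg _ ⟨_, rfl⟩
    rw [← dist_eq_norm]
    apply le_of_lt
    apply hd
    rw [Prod.dist_eq, dist_self]
    apply max_lt _ hδ
    rw [Real.dist_eq, ← sub_div]
    have e : (((m + 1 : ℕ) : ℝ) - m) = 1 := by push_cast; ring
    rw [e, abs_of_pos (by positivity)]
    exact hNδ) N le_rfl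
  obtain ⟨E, hE, hEh, hEp, hEv, hE01⟩ := h
  refine ⟨E, hE, hEh, fun t i u hu0 hu1 => ?_, hEv, hE01⟩
  rw [hEp t i u hu0 hu1, div_self hN0.ne']

/-- The main topological consequence: if a loop of polygons `t ↦ P (0, t)` can be contracted and
is carried by an isotopy `R` of the space, then the final homeomorphism `R (1, ·)` is homotopic to
the identity in the complement of the polygon, with fixed base point. -/
theorem core2 {n : ℕ} (v0 : V) (P : ℝ × ℝ → Poly n) (hP : UniformContinuous P)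
    (hK : IsCompact (range P)) (hs : ∀ z, Simple (List.ofFn (P z)) ∧ v0 ∉ ps (List.ofFn (P z)))
    (h01 : ∀ s, P (s, 0) = P (s, 1)) (h1 : ∀ t, P (1, t) = P (1, 0))
    (R : ℝ × V → V) (hR : Continuous R) (hRi : ∀ t, Function.Injective (fun x => R (t, x)))
    (hRp : ∀ (t : ℝ) (i : Fin (n + 1)) (u : ℝ), 0 ≤ u → u ≤ 1 →
      R (t, pt (P (0, 0)) i u) = pt (P (0, t)) i u)
    (hRv : ∀ t, R (t, v0) = v0) :
    ∃ G : ℝ × V → V, Continuous G ∧
      (∀ t x, x ∉ ps (List.ofFn (P (0, 0))) → G (t, x) ∉ ps (List.ofFn (P (0, 0)))) ∧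
      (∀ x, R (0, x) = x → G (0, x) = x) ∧ (∀ x, G (1, x) = R (1, x)) ∧ ∀ t, G (t, v0) = v0 := by
  obtain ⟨E, hE, hEh, hEp, hEv, hE01⟩ := core v0 P hP hK hs h01
  obtain ⟨h, hh⟩ := hEh 0
  refine ⟨fun z => h.symm (E (z.1, R z)), ?_, ?_, ?_, ?_, ?_⟩
  · have := h.symm.continuous
    fun_prop
  · intro t x hx hmem
    rw [mem_ps] at hmem
    obtain ⟨i, u, ⟨hu0, hu1⟩, he⟩ := hmem
    have e1 : E (t, R (t, x)) = h (pt (P (0, 0)) i u) := by
      rw [← he, Homeomorph.apply_symm_apply]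
    rw [hh, hEp 0 i u hu0 hu1, ← h1 t, ← hEp t i u hu0 hu1] at e1
    obtain ⟨h', hh'⟩ := hEh t
    rw [← hh', ← hh'] at e1
    have e2 := h'.injective e1
    rw [← hRp t i u hu0 hu1] at e2
    exact hx ((mem_ps _ _).2 ⟨i, u, ⟨hu0, hu1⟩, hRi t e2⟩)
  · intro x hx
    simp only
    rw [hx, ← hh, Homeomorph.symm_apply_apply]
  · intro x
    simp only
    rw [← hE01, ← hh, Homeomorph.symm_apply_apply]
  · intro t
    simp only
    rw [hRv, hEv, Homeomorph.symm_apply_eq, hh, hEv]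

end H325Gr
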