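import Mathlib
import Pool.Agent.H246KN.Defs

/-!
# The homeomorphism `Φ` and the rotation isotopy `R`
-/

set_option autoImplicit false

namespace H325Gr

open KN Filter Topology Set

noncomputable section

/-- the part of the space with negative first coordinate is stretched -/
def PhiF (p : V) : V :=
  (p.1 - 119 * max 0 (-p.1), p.2.1, 1 / 2 + (p.2.2 - 1 / 2) * (1 + 320 / 7 * max 0 (-p.1)))

/-- the inverse map -/
def PsiF (p : V) : V :=
  (p.1 + 119 / 120 * max 0 (-p.1), p.2.1,
    1 / 2 + (p.2.2 - 1 / 2) / (1 + 8 / 21 * max 0 (-p.1)))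

/-- the homeomorphism -/
def Phi : V ≃ₜ V where
  toFun := PhiF
  invFun := PsiF
  left_inv := by
    rintro ⟨x, y, z⟩
    unfold PhiF PsiF
    simp only
    rcases le_total 0 x with h | h
    · rw [max_eq_left (show -x ≤ 0 by linarith)]
      simp only [mul_zero, sub_zero, add_zero]
      rw [max_eq_left (show -x ≤ 0 by linarith)]
      simp
    · rw [max_eq_right (show 0 ≤ -x by linarith)]
      rw [max_eq_right (show 0 ≤ -(x - 119 * -x) by linarith)]
      have h1 : (1 + 8 / 21 * -(x - 119 * -x)) = 1 + 320 / 7 * -x := by ring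
      rw [h1]
      have h2 : (1 + 320 / 7 * -x) ≠ 0 := by
        have : 0 ≤ 320 / 7 * -x := by linarith
        linarith
      ext
      · simp only; ring
      · simp only
      · show (1 / 2 : ℝ) + (1 / 2 + (z - 1 / 2) * (1 + 320 / 7 * -x) - 1 / 2) / (1 + 320 / 7 * -x) = z
        rw [add_sub_cancel_left, mul_div_cancel_right₀ _ h2]
        ring
  right_inv := by
    rintro ⟨x, y, z⟩
    unfold PhiF PsiF
    simp only
    rcases le_total 0 x with h | h
    · rw [max_eq_left (show -x ≤ 0 by linarith)]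
      simp only [mul_zero, add_zero]
      rw [max_eq_left (show -x ≤ 0 by linarith)]
      simp
    · rw [max_eq_right (show 0 ≤ -x by linarith)]
      rw [max_eq_right (show 0 ≤ -(x + 119 / 120 * -x) by linarith)]
      have h1 : (1 + 320 / 7 * -(x + 119 / 120 * -x)) = 1 + 8 / 21 * -x := by ring
      rw [h1]
      have h2 : (1 + 8 / 21 * -x) ≠ 0 := by
        have : 0 ≤ 8 / 21 * -x := by linarith
        linarith
      ext
      · simp only; ring
      · simp only
      · show (1 / 2 : ℝ) + (1 / 2 + (z - 1 / 2) / (1 + 8 / 21 * -x) - 1 / 2) * (1 + 8 / 21 * -x) = z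
        rw [add_sub_cancel_left, div_mul_cancel₀ _ h2]
        ring
  continuous_toFun := by unfold PhiF; fun_prop
  continuous_invFun := by
    unfold PsiF
    have : ∀ p : V, (1 + 8 / 21 * max 0 (-p.1)) ≠ 0 := by
      intro p
      have : 0 ≤ max 0 (-p.1) := le_max_left _ _
      positivity
    fun_prop (disch := exact this _)

theorem Phi_apply (p : V) : Phi p = PhiF p := rfl
theorem Phi_symm_apply (p : V) : Phi.symm p = PsiF p := rfl

theorem Phi_id (p : V) (h : 0 ≤ p.1) : Phi p = p := by
  rw [Phi_apply]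
  unfold PhiF
  rw [max_eq_left (show -p.1 ≤ 0 by linarith)]
  simp

theorem Psi_id (p : V) (h : 0 ≤ p.1) : Phi.symm p = p := by
  rw [Phi_symm_apply]
  unfold PsiF
  rw [max_eq_left (show -p.1 ≤ 0 by linarith)]
  simp

/-- rotation around the third axis -/
def rz (θ : ℝ) (x : V) : V :=
  (x.1 * Real.cos θ - x.2.1 * Real.sin θ, x.1 * Real.sin θ + x.2.1 * Real.cos θ, x.2.2)

theorem rz_zero (x : V) : rz 0 x = x := by
  unfold rz
  simp

theorem rz_rz (a b : ℝ) (x : V) : rz a (rz b x) = rz (a + b) x := by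
  unfold rz
  rw [Real.cos_add, Real.sin_add]
  ext
  · simp only; ring
  · simp only; ring
  · rfl

theorem rz_two_pi (x : V) : rz (2 * Real.pi) x = x := by
  unfold rz
  simp

theorem rz_norm (θ : ℝ) (x : V) : (rz θ x).1 ^ 2 + (rz θ x).2.1 ^ 2 = x.1 ^ 2 + x.2.1 ^ 2 := by
  unfold rz
  simp only
  have := Real.sin_sq_add_cos_sq θ
  linear_combination (x.1 ^ 2 + x.2.1 ^ 2) * this

theorem rz_axis (θ z : ℝ) : rz θ (0, 0, z) = (0, 0, z) := by
  unfold rz
  simp

/-- the amount of rotation -/
def phi (x : V) : ℝ :=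
  max 0 (min 1 (min (42 - (x.1 ^ 2 + x.2.1 ^ 2)) (min (3 - x.2.2) (x.2.2 + 2))))

theorem phi_rz (θ : ℝ) (x : V) : phi (rz θ x) = phi x := by
  unfold phi
  rw [rz_norm]
  rfl

theorem phi_cont : Continuous phi := by
  unfold phi
  fun_prop

theorem phi_one (x : V) (h1 : x.1 ^ 2 + x.2.1 ^ 2 ≤ 41) (h2 : -1 ≤ x.2.2) (h3 : x.2.2 ≤ 2) :
    phi x = 1 := by
  unfold phi
  rw [min_eq_left, max_eq_right zero_le_one]
  exact le_min (by linarith) (le_min (by linarith) (by linarith))

theorem phi_zero (x : V) (h : 42 ≤ x.1 ^ 2 + x.2.1 ^ 2 ∨ 3 ≤ x.2.2 ∨ x.2.2 ≤ -2) : phi x = 0 := by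
  unfold phi
  apply max_eq_left
  refine (min_le_right _ _).trans ?_
  rcases h with h | h | h
  · exact (min_le_left _ _).trans (by linarith)
  · exact (min_le_right _ _).trans ((min_le_left _ _).trans (by linarith))
  · exact (min_le_right _ _).trans ((min_le_right _ _).trans (by linarith))

/-- the isotopy -/
def RR (z : ℝ × V) : V := rz (2 * Real.pi * z.1 * phi z.2) z.2

theorem RR_cont : Continuous RR := by
  unfold RR rz
  have := phi_cont
  fun_prop

theorem RR_zero (x : V) : RR (0, x) = x := by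
  unfold RR
  simp only [mul_zero, zero_mul]
  exact rz_zero x

theorem RR_inj (t : ℝ) : Function.Injective (fun x => RR (t, x)) := by
  apply Function.LeftInverse.injective (g := fun x => RR (-t, x))
  intro x
  unfold RR
  simp only
  rw [phi_rz, rz_rz]
  have : 2 * Real.pi * -t * phi x + 2 * Real.pi * t * phi x = 0 := by ring
  rw [this, rz_zero]

theorem RR_phi_zero (t : ℝ) (x : V) (h : phi x = 0) : RR (t, x) = x := by
  unfold RR
  simp only
  rw [h, mul_zero, rz_zero]

theorem RR_phi_one (t : ℝ) (x : V) (h : phi x = 1) : RR (t, x) = rz (2 * Real.pi * t) x := by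
  unfold RR
  simp only
  rw [h, mul_one]

theorem RR_axis (t z : ℝ) : RR (t, (0, 0, z)) = (0, 0, z) := by
  unfold RR
  exact rz_axis _ _

end

end H325Gr
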