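import Pool.Agent.H325Gr.Trn
import Pool.Agent.H325Gr.Geo

/-!
# Transport along the twisted vertical segment
-/

set_option autoImplicit false

namespace H325Gr

open KN Filter Topology Set K2NONAB K3XGRP

/-- the cubes around the axis -/
def Blk (c : Z3) : Prop :=
  (c.1 = -1 ∨ c.1 = 0) ∧ (c.2.1 = -1 ∨ c.2.1 = 0) ∧ -3 ≤ c.2.2 ∧ c.2.2 ≤ -1

theorem gtr_blk (c c' : Z3) (h : Blk c) (h' : Blk c') :
    gtr gg c c' = if c.2.1 ≠ c'.2.1 ∧ c'.1 = -1 then Equiv.swap 0 1 else 1 := by
  obtain ⟨i, j, k⟩ := c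
  obtain ⟨i', j', k'⟩ := c'
  obtain ⟨hi, hj, hk1, hk2⟩ := h
  obtain ⟨hi', hj', hk1', hk2'⟩ := h'
  simp only at hi hj hk1 hk2 hi' hj' hk1' hk2' ⊢
  have f1 : gse gg (i, j, k) .xp .xm (i' - i) = 1 := by
    unfold gse
    split_ifs
    · rfl
    · show (gg.g1 _)⁻¹ = 1
      rw [gg1, inv_one]
    · rfl
  have f3 : gse gg (i', j', k) .zp .zm (k' - k) = 1 := by
    unfold gse
    split_ifs with h1 h2
    · exact gg3 i' j' k hi' hj' hk1 (by omega)
    · show (gg.g3 ((i', j', k) - (0, 0, 1)))⁻¹ = 1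
      have e : ((i', j', k) : Z3) - (0, 0, 1) = (i', j', k - 1) := by simp
      rw [e, gg3 i' j' (k - 1) hi' hj' (by omega) (by omega), inv_one]
    · rfl
  have f2 : gse gg (i', j, k) .yp .ym (j' - j) =
      if j ≠ j' ∧ i' = -1 then Equiv.swap 0 1 else 1 := by
    unfold gse
    split_ifs with h1 h2 h3 h4 h5
    · obtain ⟨-, rfl⟩ := h2
      have : j = -1 := by omega
      subst this
      exact gg2b k hk1 hk2
    · have : j = -1 := by omega
      subst this
      have : i' = 0 := by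
        rcases hi' with h | h
        · exact absurd ⟨by omega, h⟩ h2
        · exact h
      subst this
      exact gg2a k hk1 hk2
    · obtain ⟨-, rfl⟩ := h4
      have : j = 0 := by omega
      subst this
      show (gg.g2 ((-1, 0, k) - (0, 1, 0)))⁻¹ = _
      have e : ((-1, 0, k) : Z3) - (0, 1, 0) = (-1, -1, k) := by simp
      rw [e, gg2b k hk1 hk2, Equiv.swap_inv]
    · have : j = 0 := by omega
      subst this
      have : i' = 0 := by
        rcases hi' with h | h
        · exact absurd ⟨by omega, h⟩ h4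
        · exact h
      subst this
      show (gg.g2 ((0, 0, k) - (0, 1, 0)))⁻¹ = _
      have e : ((0, 0, k) : Z3) - (0, 1, 0) = (0, -1, k) := by simp
      rw [e, gg2a k hk1 hk2, inv_one]
    · exfalso
      omega
    · rfl
  show gse gg (i, j, k) .xp .xm (i' - i) * gse gg (i', j, k) .yp .ym (j' - j) *
    gse gg (i', j', k) .zp .zm (k' - k) = _
  rw [f1, f2, f3, one_mul, mul_one]

/-- the angle at the point with parameter `t` -/
noncomputable def ang (t : ℝ) : ℝ := 2 * Real.pi * max 0 (min 1 (2 * t - 1 / 2))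

theorem ang_cont : Continuous ang := by
  unfold ang
  fun_prop

theorem ang_nonneg (t : ℝ) : 0 ≤ ang t := by
  unfold ang
  have := Real.pi_pos
  have h : 0 ≤ max 0 (min 1 (2 * t - 1 / 2)) := le_max_left _ _
  positivity

theorem ang_le (t : ℝ) : ang t ≤ 2 * Real.pi := by
  unfold ang
  have := Real.pi_pos
  have h : max 0 (min 1 (2 * t - 1 / 2)) ≤ 1 := max_le zero_le_one (min_le_left _ _)
  nlinarith

theorem ang_zero : ang 0 = 0 := by
  unfold ang
  norm_num

theorem ang_one : ang 1 = 2 * Real.pi := by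
  unfold ang
  norm_num

/-- the map on the complement of the lattice polygon -/
noncomputable def ff (x : V) : V := Phi.symm (RR (1, Phi x))

/-- the vertical segment -/
noncomputable def seg (t : ℝ) : V := (1 / 2, -(1 / 2), -(5 / 2) + 2 * t)

theorem phi_seg (t : ℝ) (_h0 : 0 ≤ t) (h1 : t ≤ 1) : phi (seg t) = max 0 (min 1 (2 * t - 1 / 2)) := by
  unfold phi seg
  simp only
  have e : min (42 - ((1 / 2 : ℝ) ^ 2 + (-(1 / 2)) ^ 2)) (min (3 - (-(5 / 2) + 2 * t))
      (-(5 / 2) + 2 * t + 2)) = 2 * t - 1 / 2 := by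
    rw [min_eq_right (a := 3 - (-(5 / 2) + 2 * t)) (by linarith), min_eq_right (by norm_num; linarith)]
    ring
  rw [e]

theorem ff_seg (t : ℝ) (h0 : 0 ≤ t) (h1 : t ≤ 1) : ff (seg t) =
    Phi.symm ((Real.cos (ang t) + Real.sin (ang t)) / 2, (Real.sin (ang t) - Real.cos (ang t)) / 2,
      -(5 / 2) + 2 * t) := by
  unfold ff
  rw [Phi_id _ (by unfold seg; norm_num)]
  congr 1
  unfold RR
  simp only
  rw [phi_seg t h0 h1, mul_one]
  show rz (ang t) (seg t) = _
  unfold rz seg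
  ext
  · simp only; ring
  · simp only; ring
  · rfl

theorem sum_sq_bound (a b : ℝ) (h : b ^ 2 + a ^ 2 = 1) : (a + b) / 2 < 1 ∧ -1 < (a + b) / 2 ∧
    (b - a) / 2 < 1 ∧ -1 < (b - a) / 2 := by
  refine ⟨?_, ?_, ?_, ?_⟩ <;> nlinarith [sq_nonneg (a - b), sq_nonneg (a + b)]

theorem cube_ff (t : ℝ) (h0 : 0 ≤ t) (h1 : t ≤ 1) : Blk (cube (ff (seg t))) ∧
    ((cube (ff (seg t))).1 = -1 ↔ Real.cos (ang t) + Real.sin (ang t) < 0) ∧
    ((cube (ff (seg t))).2.1 = -1 ↔ Real.sin (ang t) - Real.cos (ang t) < 0) := by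
  rw [ff_seg t h0 h1, Phi_symm_apply]
  obtain ⟨b1, b2, b3, b4⟩ := sum_sq_bound (Real.cos (ang t)) (Real.sin (ang t))
    (Real.sin_sq_add_cos_sq (ang t))
  set C := Real.cos (ang t)
  set S := Real.sin (ang t)
  unfold PsiF cube
  simp only
  have hy : (⌊(S - C) / 2⌋ = -1 ↔ S - C < 0) ∧ (⌊(S - C) / 2⌋ = -1 ∨ ⌊(S - C) / 2⌋ = 0) := by
    rcases lt_or_ge (S - C) 0 with h | h
    · have e : ⌊(S - C) / 2⌋ = -1 := by
        rw [Int.floor_eq_iff]
        push_cast
        constructor <;> linarith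
      exact ⟨⟨fun _ => h, fun _ => e⟩, Or.inl e⟩
    · have e : ⌊(S - C) / 2⌋ = 0 := by
        rw [Int.floor_eq_iff]
        push_cast
        constructor <;> linarith
      refine ⟨⟨fun h' => ?_, fun h' => ?_⟩, Or.inr e⟩
      · rw [e] at h'
        norm_num at h'
      · linarith
  have hx : (⌊(C + S) / 2 + 119 / 120 * max 0 (-((C + S) / 2))⌋ = -1 ↔ C + S < 0) ∧
      (⌊(C + S) / 2 + 119 / 120 * max 0 (-((C + S) / 2))⌋ = -1 ∨
        ⌊(C + S) / 2 + 119 / 120 * max 0 (-((C + S) / 2))⌋ = 0) := by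
    rcases lt_or_ge (C + S) 0 with h | h
    · have e : ⌊(C + S) / 2 + 119 / 120 * max 0 (-((C + S) / 2))⌋ = -1 := by
        rw [max_eq_right (by linarith), Int.floor_eq_iff]
        push_cast
        constructor <;> linarith
      exact ⟨⟨fun _ => h, fun _ => e⟩, Or.inl e⟩
    · have e : ⌊(C + S) / 2 + 119 / 120 * max 0 (-((C + S) / 2))⌋ = 0 := by
        rw [max_eq_left (by linarith), Int.floor_eq_iff]
        push_cast
        constructor <;> linarith
      refine ⟨⟨fun h' => ?_, fun h' => ?_⟩, Or.inr e⟩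
      · rw [e] at h'
        norm_num at h'
      · linarith
  have hz : -3 ≤ ⌊1 / 2 + (-(5 / 2) + 2 * t - 1 / 2) / (1 + 8 / 21 * max 0 (-((C + S) / 2)))⌋ ∧
      ⌊1 / 2 + (-(5 / 2) + 2 * t - 1 / 2) / (1 + 8 / 21 * max 0 (-((C + S) / 2)))⌋ ≤ -1 := by
    have hD1 : (1 : ℝ) ≤ 1 + 8 / 21 * max 0 (-((C + S) / 2)) := by
      have : 0 ≤ max 0 (-((C + S) / 2)) := le_max_left _ _
      linarith
    have hD2 : 1 + 8 / 21 * max 0 (-((C + S) / 2)) ≤ 29 / 21 := by
      have : max 0 (-((C + S) / 2)) ≤ 1 := max_le zero_le_one (by linarith)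
      linarith
    set D := 1 + 8 / 21 * max 0 (-((C + S) / 2))
    have hD0 : 0 < D := by linarith
    constructor
    · rw [Int.le_floor]
      push_cast
      have : -(7 / 2) ≤ (-(5 / 2) + 2 * t - 1 / 2) / D := by
        rw [le_div_iff₀ hD0]
        linarith
      linarith
    · have : ⌊1 / 2 + (-(5 / 2) + 2 * t - 1 / 2) / D⌋ < 0 := by
        rw [Int.floor_lt]
        push_cast
        have : (-(5 / 2) + 2 * t - 1 / 2) / D < -(1 / 2) := by
          rw [div_lt_iff₀ hD0]
          linarith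
        linarith
      omega
  exact ⟨⟨hx.2, hy.2, hz⟩, hx.1, hy.1⟩


theorem cs_eq (θ : ℝ) : Real.cos θ + Real.sin θ = √2 * Real.cos (θ - Real.pi / 4) ∧
    Real.sin θ - Real.cos θ = √2 * Real.sin (θ - Real.pi / 4) := by
  have h2 : √2 * √2 = 2 := Real.mul_self_sqrt (by norm_num)
  rw [Real.cos_sub, Real.sin_sub, Real.cos_pi_div_four, Real.sin_pi_div_four]
  constructor
  · linear_combination (-(Real.cos θ + Real.sin θ) / 2) * h2
  · linear_combination (-(Real.sin θ - Real.cos θ) / 2) * h2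

theorem F1 (θ : ℝ) (h0 : 0 ≤ θ) (h : θ < 3 * Real.pi / 4) : ¬ (Real.cos θ + Real.sin θ < 0) := by
  rw [(cs_eq θ).1, not_lt]
  have := Real.cos_nonneg_of_neg_pi_div_two_le_of_le (x := θ - Real.pi / 4)
    (by linarith [Real.pi_pos]) (by linarith [Real.pi_pos])
  positivity

theorem F2 (θ : ℝ) (h0 : Real.pi / 4 ≤ θ) (h : θ ≤ 5 * Real.pi / 4) :
    ¬ (Real.sin θ - Real.cos θ < 0) := by
  rw [(cs_eq θ).2, not_lt]
  have := Real.sin_nonneg_of_nonneg_of_le_pi (x := θ - Real.pi / 4)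
    (by linarith [Real.pi_pos]) (by linarith [Real.pi_pos])
  positivity

theorem F3 (θ : ℝ) (h0 : 3 * Real.pi / 4 < θ) (h : θ < 7 * Real.pi / 4) :
    Real.cos θ + Real.sin θ < 0 := by
  rw [(cs_eq θ).1]
  have := Real.cos_neg_of_pi_div_two_lt_of_lt (x := θ - Real.pi / 4)
    (by linarith [Real.pi_pos]) (by linarith [Real.pi_pos])
  have h2 : 0 < √2 := by positivity
  exact mul_neg_of_pos_of_neg h2 this

theorem F4 (θ : ℝ) (h0 : 5 * Real.pi / 4 < θ) (h : θ ≤ 2 * Real.pi) :
    Real.sin θ - Real.cos θ < 0 := by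
  rw [(cs_eq θ).2]
  have h1 := Real.sin_pos_of_pos_of_lt_pi (x := θ - Real.pi / 4 - Real.pi)
    (by linarith [Real.pi_pos]) (by linarith [Real.pi_pos])
  rw [Real.sin_sub_pi] at h1
  have h2 : 0 < √2 := by positivity
  exact mul_neg_of_pos_of_neg h2 (by linarith)

/-- the vertical segment as a path -/
noncomputable def p2 : Path (mc ww sap_ww (0, -1, -3)) (mc ww sap_ww (0, -1, -1)) where
  toFun t := ⟨seg t, by
    have e : seg t = gam (0, -1, -3) .zp (2 * t) := by
      unfold seg gam vec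
      ext
      · norm_num
      · norm_num
      · simp only
        push_cast
        ring
    rw [e]
    exact gam_not_mem ww sap_ww _ _ _⟩
  continuous_toFun := by
    apply Continuous.subtype_mk
    unfold seg
    fun_prop
  source' := by
    apply Subtype.ext
    show seg 0 = mid (0, -1, -3)
    unfold seg mid
    ext <;> norm_num
  target' := by
    apply Subtype.ext
    show seg 1 = mid (0, -1, -1)
    unfold seg mid
    ext <;> norm_num

theorem p2_apply (t : unitInterval) : (p2 t).1 = seg t := rfl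

theorem val_seg (t s : ℝ) (ht0 : 0 ≤ t) (ht1 : t ≤ 1) (hs0 : 0 ≤ s) (hs1 : s ≤ 1) :
    pb (TT gg) ff (seg t) (seg s) =
      if (Real.sin (ang t) - Real.cos (ang t) < 0 ↔ ¬ Real.sin (ang s) - Real.cos (ang s) < 0) ∧
        Real.cos (ang s) + Real.sin (ang s) < 0 then Equiv.swap 0 1 else 1 := by
  obtain ⟨a1, -, a3⟩ := cube_ff t ht0 ht1
  obtain ⟨b1, b2, b3⟩ := cube_ff s hs0 hs1
  unfold pb TT
  rw [gtr_blk _ _ a1 b1]
  have e : ((cube (ff (seg t))).2.1 ≠ (cube (ff (seg s))).2.1 ∧ (cube (ff (seg s))).1 = -1) ↔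
      ((Real.sin (ang t) - Real.cos (ang t) < 0 ↔ ¬ Real.sin (ang s) - Real.cos (ang s) < 0) ∧
        Real.cos (ang s) + Real.sin (ang s) < 0) := by
    rw [← a3, ← b3, ← b2]
    obtain ⟨-, h1, -⟩ := a1
    obtain ⟨-, h2, -⟩ := b1
    constructor
    · rintro ⟨k1, k2⟩
      refine ⟨?_, k2⟩
      omega
    · rintro ⟨k1, k2⟩
      refine ⟨?_, k2⟩
      omega
  simp only [e]

theorem tr_helix : Tr (pb (TT gg) ff) p2 (Equiv.swap 0 1) := by
  refine ⟨fun t => if ang t ≤ 5 * Real.pi / 4 then 1 else Equiv.swap 0 1, ?_, ?_, ?_⟩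
  · simp only
    rw [ang_zero, if_pos (by positivity)]
  · simp only
    rw [ang_one, if_neg (by linarith [Real.pi_pos])]
  · intro t h0 h1
    have hpi := Real.pi_pos
    have hc := ang_cont.tendsto t
    have hext : ∀ r : ℝ, 0 ≤ r → r ≤ 1 → (p2.extend r).1 = seg r := fun r r0 r1 => by
      rw [Path.extend_apply _ ⟨r0, r1⟩]
      rfl
    simp only
    rw [hext t h0 h1]
    rcases lt_trichotomy (ang t) (5 * Real.pi / 4) with h | h | h
    · -- before the crossing
      by_cases h3 : ang t < 3 * Real.pi / 4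
      · filter_upwards [hc.eventually_lt_const h3, hc.eventually_lt_const h] with s hs hs' a0 a1
        rw [hext s a0 a1, val_seg t s h0 h1 a0 a1, if_pos hs'.le, if_pos h.le,
          if_neg (fun hh => F1 _ (ang_nonneg s) hs hh.2), mul_one]
      · have h4 : Real.pi / 4 < ang t := by
          push Not at h3
          linarith
        filter_upwards [hc.eventually_const_lt h4, hc.eventually_lt_const h] with s hs hs' a0 a1
        rw [hext s a0 a1, val_seg t s h0 h1 a0 a1, if_pos hs'.le, if_pos h.le, if_neg, mul_one]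
        rintro ⟨k1, -⟩
        exact F2 _ h4.le h.le (k1.2 (F2 _ hs.le hs'.le))
    · -- the crossing
      have g1 : 3 * Real.pi / 4 < ang t := by rw [h]; linarith
      have g2 : ang t < 7 * Real.pi / 4 := by rw [h]; linarith
      filter_upwards [hc.eventually_const_lt g1, hc.eventually_lt_const g2] with s hs hs' a0 a1
      rw [hext s a0 a1, val_seg t s h0 h1 a0 a1, if_pos h.le, one_mul]
      have f2 := F2 (ang t) (by rw [h]; linarith) h.le
      have f3 := F3 _ hs hs'
      by_cases h5 : ang s ≤ 5 * Real.pi / 4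
      · rw [if_pos h5, if_neg]
        rintro ⟨k1, -⟩
        exact f2 (k1.2 (F2 _ (by linarith) h5))
      · rw [if_neg h5, if_pos]
        refine ⟨⟨fun k => absurd k f2, fun k => ?_⟩, f3⟩
        exact absurd (F4 _ (not_le.1 h5) (ang_le s)) k
    · filter_upwards [hc.eventually_const_lt h] with s hs a0 a1
      rw [hext s a0 a1, val_seg t s h0 h1 a0 a1, if_neg (not_le.2 hs), if_neg (not_le.2 h), if_neg,
        mul_one]
      rintro ⟨k1, -⟩
      exact k1.1 (F4 _ h (ang_le t)) (F4 _ hs (ang_le s))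

end H325Gr
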