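import Pool.Agent.H325Gr.Core
import Pool.Agent.H246K3.XHOMOT
import Pool.Agent.H246K3.XGRP
import Pool.Agent.H246K3.XBOX
import Pool.Agent.H246K2.JFLAT
import Pool.Agent.H246K2.TFLAT
import Pool.Agent.H246K2.MFLAT
import Pool.Agent.H246K2.GAUGE
import Pool.Agent.H246K2.BLOCK
import Pool.Agent.H246K2.LIFT
import Pool.Agent.H246K2.LUNIQ

/-!
# The lattice polygon, its gauge field and some loops
-/

set_option autoImplicit false

namespace H325Gr

open KN Filter Topology Set

/-- the left polygon without the edge that starts at the origin in direction zp -/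
def l1 : List Dir := [.zp, .zp, .zp, .xp, .zm, .zm, .zm, .zm, .zm, .zm, .zm, .xm, .zp, .zp, .zp]

/-- the lattice polygon -/
def ww : List Dir := join l1 v0 []

theorem facing : Facing l1 v0 [] := by
  refine ⟨⟨by decide, by decide, by decide⟩, by decide, ⟨by decide, by decide, by decide⟩, by decide⟩

theorem sap_ww : SAP ww := by
  refine ⟨by decide, by decide, by decide⟩

/-- its gauge field -/
noncomputable def gg : Gauge S3 := jgauge (pos []) (l1 ++ .xm :: .zp :: .xp :: [])

theorem gf_gg : GF gg ww := T_jflat_proof T_mflat_proof T_tflat_proof l1 [] facing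

theorem flat_gg : Flat (ps (vl ww))ᶜ (TT gg) :=
  T_gauge_proof T_block_proof S3 gg ww sap_ww gf_gg

end H325Gr
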