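import Pool.Agent.H325Gr.Geo
import Pool.Agent.H325Gr.Lat

/-!
# The polygon with 44 vertices
-/

set_option autoImplicit false

namespace H325Gr

open KN Filter Topology Set

/-- the vertices -/
def zl : List Z3 := [(0, 0, 0), (1, 0, 0), (2, 0, 0), (3, 0, 0), (3, 0, 1), (3, 1, 1), (3, 2, 1),
  (3, 2, 0), (4, 2, 0), (5, 2, 0), (5, 2, 1), (5, 3, 1), (5, 4, 1), (5, 4, 0), (4, 4, 0), (3, 4, 0),
  (2, 4, 0), (2, 4, 1), (2, 3, 1), (2, 2, 1), (2, 1, 1), (2, 1, 0), (3, 1, 0), (4, 1, 0), (4, 1, 1),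
  (4, 2, 1), (4, 3, 1), (4, 3, 0), (3, 3, 0), (2, 3, 0), (1, 3, 0), (1, 3, 1), (1, 2, 1), (1, 1, 1),
  (1, 0, 1), (0, 0, 1), (0, 0, 2), (0, 0, 3), (0, 0, 4), (-120, 0, 164), (-120, 0, -163),
  (0, 0, -3), (0, 0, -2), (0, 0, -1)]

/-- the vertices as a function -/
def Z0 (i : Fin 44) : Z3 := zl.getD i 0

/-- the polygon -/
noncomputable def P0 : Poly 43 := fun i => emb (Z0 i)

/-- the short edges -/
def sh (i : Fin 44) : Prop := i ≠ 38 ∧ i ≠ 39 ∧ i ≠ 40

instance (i : Fin 44) : Decidable (sh i) := by unfold sh; infer_instance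

def zchain : Z3 → List Z3 → List (Z3 × Z3)
  | _, [] => []
  | p, q :: l => (p, q) :: zchain q l

def zedges : List Z3 → List (Z3 × Z3)
  | [] => []
  | p :: l => zchain p (l ++ [p])

theorem chain_map (p : Z3) (l : List Z3) :
    chain (emb p) (l.map emb) = (zchain p l).map (Prod.map emb emb) := by
  induction l generalizing p with
  | nil => rfl
  | cons q l ih =>
    simp only [List.map_cons, chain, zchain, Prod.map_apply]
    rw [ih]

theorem edges_map (l : List Z3) : edges (l.map emb) = (zedges l).map (Prod.map emb emb) := by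
  cases l with
  | nil => rfl
  | cons p l =>
    show chain (emb p) (l.map emb ++ [emb p]) = _
    have : l.map emb ++ [emb p] = (l ++ [p]).map emb := by simp
    rw [this, chain_map]
    rfl

/-- the edges of the lattice polygon -/
theorem zedges_cases : ∀ e ∈ zedges (path ww.tail), (∃ i : Fin 44, sh i ∧ e = (Z0 (i + 1), Z0 i)) ∨
    e = ((-1, 0, 4), (0, 0, 4)) ∨ e = ((0, 0, -3), (-1, 0, -3)) ∨
    ∃ k : Fin 7, e = ((-1, 0, (k : ℤ) - 3), (-1, 0, (k : ℤ) - 2)) := by
  decide +kernel

theorem zedges_short : ∀ i : Fin 44, sh i → (Z0 (i + 1), Z0 i) ∈ zedges (path ww.tail) := by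
  decide +kernel

theorem zedges_top : (((-1, 0, 4), (0, 0, 4)) : Z3 × Z3) ∈ zedges (path ww.tail) := by
  decide +kernel

theorem zedges_bot : (((0, 0, -3), (-1, 0, -3)) : Z3 × Z3) ∈ zedges (path ww.tail) := by
  decide +kernel

theorem zedges_ver : ∀ k : Fin 7, ((((-1 : ℤ), (0 : ℤ), (k : ℤ) - 3), ((-1 : ℤ), (0 : ℤ), (k : ℤ) - 2)) : Z3 × Z3) ∈
    zedges (path ww.tail) := by
  decide +kernel

theorem Z0_nonneg : ∀ i : Fin 44, sh i → 0 ≤ (Z0 i).1 ∧ 0 ≤ (Z0 (i + 1)).1 := by
  decide +kernel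

/-- points of the lattice polygon -/
theorem mem_vl (x : V) : x ∈ ps (vl ww) ↔ ∃ e ∈ zedges (path ww.tail), ∃ u : ℝ, 0 ≤ u ∧ u ≤ 1 ∧
    x = lerp (emb e.1) (emb e.2) u := by
  unfold ps vl
  rw [Set.mem_ofPred_eq, edges_map]
  constructor
  · rintro ⟨e, he, u, h0, h1, rfl⟩
    rw [List.mem_map] at he
    obtain ⟨e', he', rfl⟩ := he
    exact ⟨e', he', u, h0, h1, rfl⟩
  · rintro ⟨e, he, u, h0, h1, rfl⟩
    exact ⟨Prod.map emb emb e, List.mem_map_of_mem he, u, h0, h1, rfl⟩

theorem lerp_flip (p q : V) (u : ℝ) : lerp p q u = lerp q p (1 - u) := by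
  unfold lerp
  module

theorem pt_short_nonneg (i : Fin 44) (hi : sh i) (u : ℝ) (h0 : 0 ≤ u) (h1 : u ≤ 1) :
    0 ≤ (pt P0 i u).1 := by
  obtain ⟨a, b⟩ := Z0_nonneg i hi
  have a' : (0 : ℝ) ≤ ((Z0 i).1 : ℝ) := by exact_mod_cast a
  have b' : (0 : ℝ) ≤ ((Z0 (i + 1)).1 : ℝ) := by exact_mod_cast b
  show 0 ≤ (1 - u) * ((Z0 i).1 : ℝ) + u * ((Z0 (i + 1)).1 : ℝ)
  have : 0 ≤ 1 - u := by linarith
  positivity

theorem pt38 (u : ℝ) : pt P0 38 u = (-120 * u, 0, 4 + 160 * u) := by
  unfold pt lerp P0 emb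
  have e1 : Z0 38 = (0, 0, 4) := by decide
  have e2 : Z0 (38 + 1) = (-120, 0, 164) := by decide
  rw [e1, e2]
  ext
  · simp; ring
  · simp
  · simp; ring

theorem pt39 (u : ℝ) : pt P0 39 u = (-120, 0, 164 - 327 * u) := by
  unfold pt lerp P0 emb
  have e1 : Z0 39 = (-120, 0, 164) := by decide
  have e2 : Z0 (39 + 1) = (-120, 0, -163) := by decide
  rw [e1, e2]
  ext
  · simp; ring
  · simp
  · simp; ring

theorem pt40 (u : ℝ) : pt P0 40 u = (-120 + 120 * u, 0, -163 + 160 * u) := by
  unfold pt lerp P0 emb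
  have e1 : Z0 40 = (-120, 0, -163) := by decide
  have e2 : Z0 (40 + 1) = (0, 0, -3) := by decide
  rw [e1, e2]
  ext
  · simp; ring
  · simp
  · simp; ring

theorem Phi_neg (x y z : ℝ) (hx : x ≤ 0) :
    Phi (x, y, z) = (120 * x, y, 1 / 2 + (z - 1 / 2) * (1 - 320 / 7 * x)) := by
  rw [Phi_apply]
  unfold PhiF
  simp only
  rw [max_eq_right (by linarith)]
  ext
  · simp only; ring
  · rfl
  · simp only; ring

theorem ps_iff (x : V) : x ∈ ps (vl ww) ↔ Phi x ∈ ps (List.ofFn P0) := by
  rw [mem_vl, mem_ps]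
  constructor
  · rintro ⟨e, he, u, h0, h1, rfl⟩
    rcases zedges_cases e he with ⟨i, hi, rfl⟩ | rfl | rfl | ⟨k, rfl⟩
    · refine ⟨i, 1 - u, ⟨by linarith, by linarith⟩, ?_⟩
      rw [lerp_flip]
      exact Phi_id _ (pt_short_nonneg i hi (1 - u) (by linarith) (by linarith))
    · refine ⟨38, 1 - u, ⟨by linarith, by linarith⟩, ?_⟩
      have e : lerp (emb (-1, 0, 4)) (emb (0, 0, 4)) u = (-(1 - u), 0, 4) := by
        unfold lerp emb
        ext
        · simp
        · simp
        · simp; ring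
      rw [e, Phi_neg _ _ _ (by linarith), pt38]
      ext
      · simp only; ring
      · rfl
      · simp only; ring
    · refine ⟨40, 1 - u, ⟨by linarith, by linarith⟩, ?_⟩
      have e : lerp (emb (0, 0, -3)) (emb (-1, 0, -3)) u = (-u, 0, -3) := by
        unfold lerp emb
        ext
        · simp
        · simp
        · simp; ring
      rw [e, Phi_neg _ _ _ (by linarith), pt40]
      ext
      · simp only; ring
      · rfl
      · simp only; ring
    · have hk : ((k : ℕ) : ℝ) ≤ 6 := by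
        have := k.2
        have h : (k : ℕ) ≤ 6 := by omega
        exact_mod_cast h
      have hk0 : (0 : ℝ) ≤ ((k : ℕ) : ℝ) := Nat.cast_nonneg _
      refine ⟨39, (7 - ((k : ℕ) : ℝ) - u) / 7, ⟨by linarith, by linarith⟩, ?_⟩
      have e : lerp (emb (-1, 0, (k : ℤ) - 3)) (emb (-1, 0, (k : ℤ) - 2)) u =
          (-1, 0, ((k : ℕ) : ℝ) - 3 + u) := by
        unfold lerp emb
        ext
        · simp; ring
        · simp
        · simp; ring
      rw [e, Phi_neg _ _ _ (by linarith), pt39]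
      ext
      · simp only; ring
      · rfl
      · simp only; ring
  · rintro ⟨i, u, ⟨h0, h1⟩, hx⟩
    by_cases hi : sh i
    · have e : x = pt P0 i u := by
        rw [← Psi_id _ (pt_short_nonneg i hi u h0 h1), ← hx, Homeomorph.symm_apply_apply]
      refine ⟨_, zedges_short i hi, 1 - u, by linarith, by linarith, ?_⟩
      rw [e, lerp_flip, sub_sub_cancel]
      rfl
    · have h3 : i = 38 ∨ i = 39 ∨ i = 40 := by
        unfold sh at hi
        tauto
      rcases h3 with rfl | rfl | rfl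
      · refine ⟨_, zedges_top, 1 - u, by linarith, by linarith, ?_⟩
        apply Phi.injective
        rw [hx, pt38]
        have e : lerp (emb (-1, 0, 4)) (emb (0, 0, 4)) (1 - u) = (-u, 0, 4) := by
          unfold lerp emb
          ext
          · simp
          · simp
          · simp; ring
        rw [e, Phi_neg _ _ _ (by linarith)]
        ext
        · simp only; ring
        · rfl
        · simp only; ring
      · -- the far edge
        set Z : ℝ := 4 - 7 * u with hZ
        obtain ⟨k, hk1, hk2⟩ : ∃ k : Fin 7, ((k : ℕ) : ℝ) - 3 ≤ Z ∧ Z ≤ ((k : ℕ) : ℝ) - 2 := by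
          have hf1 := Nat.floor_le (show 0 ≤ Z + 3 by linarith)
          have hf2 := Nat.lt_floor_add_one (Z + 3)
          by_cases h7 : ⌊Z + 3⌋₊ < 7
          · exact ⟨⟨⌊Z + 3⌋₊, h7⟩, by simp only; linarith, by simp only; linarith⟩
          · refine ⟨6, ?_, ?_⟩
            · have : (7 : ℝ) ≤ (⌊Z + 3⌋₊ : ℝ) := by exact_mod_cast (not_lt.1 h7)
              have e6 : (((6 : Fin 7) : ℕ) : ℝ) = 6 := by norm_num
              rw [e6]
              linarith
            · have e6 : (((6 : Fin 7) : ℕ) : ℝ) = 6 := by norm_num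
              rw [e6]
              linarith
        refine ⟨_, zedges_ver k, Z - (((k : ℕ) : ℝ) - 3), by linarith, by linarith, ?_⟩
        apply Phi.injective
        rw [hx, pt39]
        have e : lerp (emb (-1, 0, (k : ℤ) - 3)) (emb (-1, 0, (k : ℤ) - 2))
            (Z - (((k : ℕ) : ℝ) - 3)) = (-1, 0, Z) := by
          unfold lerp emb
          ext
          · simp; ring
          · simp
          · simp; ring
        rw [e, Phi_neg _ _ _ (by linarith), hZ]
        ext
        · simp only; ring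
        · rfl
        · simp only; ring
      · refine ⟨_, zedges_bot, 1 - u, by linarith, by linarith, ?_⟩
        apply Phi.injective
        rw [hx, pt40]
        have e : lerp (emb (0, 0, -3)) (emb (-1, 0, -3)) (1 - u) = (-(1 - u), 0, -3) := by
          unfold lerp emb
          ext
          · simp
          · simp
          · simp; ring
        rw [e, Phi_neg _ _ _ (by linarith)]
        ext
        · simp only; ring
        · rfl
        · simp only; ring

end H325Gr
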