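import Pool.Agent.H325Gr.SecP
import Pool.Agent.H325Gr.Pol

/-!
# The loop of polygons
-/

set_option autoImplicit false

namespace H325Gr

open KN Filter Topology Set

noncomputable section

/-! ## The polygon is simple -/

/-- separation of the bounding boxes of two edges -/
def sepb (a b c d : ℤ) : Prop := max a b < min c d ∨ max c d < min a b

instance (a b c d : ℤ) : Decidable (sepb a b c d) := by unfold sepb; infer_instance

theorem sep_all : ∀ i j : Fin 44, i ≠ j → i + 1 ≠ j → j + 1 ≠ i →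
    sepb (Z0 i).1 (Z0 (i + 1)).1 (Z0 j).1 (Z0 (j + 1)).1 ∨
    sepb (Z0 i).2.1 (Z0 (i + 1)).2.1 (Z0 j).2.1 (Z0 (j + 1)).2.1 ∨
    sepb (Z0 i).2.2 (Z0 (i + 1)).2.2 (Z0 j).2.2 (Z0 (j + 1)).2.2 := by
  decide +kernel

/-- two consecutive differences -/
def mon (a b c : ℤ) : Prop :=
  (a < b ∧ b ≤ c) ∨ (a ≤ b ∧ b < c) ∨ (b < a ∧ c ≤ b) ∨ (b ≤ a ∧ c < b)

instance (a b c : ℤ) : Decidable (mon a b c) := by unfold mon; infer_instance

theorem mon_all : ∀ i : Fin 44, mon (Z0 i).1 (Z0 (i + 1)).1 (Z0 (i + 1 + 1)).1 ∨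
    mon (Z0 i).2.1 (Z0 (i + 1)).2.1 (Z0 (i + 1 + 1)).2.1 ∨
    mon (Z0 i).2.2 (Z0 (i + 1)).2.2 (Z0 (i + 1 + 1)).2.2 := by
  decide +kernel

theorem sepb_real {a b c d : ℤ} (h : sepb a b c d) (s t : ℝ) (s0 : 0 ≤ s) (s1 : s ≤ 1)
    (t0 : 0 ≤ t) (t1 : t ≤ 1) : (1 - s) * (a : ℝ) + s * b ≠ (1 - t) * (c : ℝ) + t * d := by
  have key : ∀ (a b : ℤ) (s : ℝ), 0 ≤ s → s ≤ 1 → ((min a b : ℤ) : ℝ) ≤ (1 - s) * (a : ℝ) + s * b ∧
      (1 - s) * (a : ℝ) + s * b ≤ ((max a b : ℤ) : ℝ) := by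
    intro a b s s0 s1
    have h1 : ((min a b : ℤ) : ℝ) ≤ a := by exact_mod_cast min_le_left a b
    have h2 : ((min a b : ℤ) : ℝ) ≤ b := by exact_mod_cast min_le_right a b
    have h3 : (a : ℝ) ≤ ((max a b : ℤ) : ℝ) := by exact_mod_cast le_max_left a b
    have h4 : (b : ℝ) ≤ ((max a b : ℤ) : ℝ) := by exact_mod_cast le_max_right a b
    constructor <;> nlinarith
  obtain ⟨k1, k2⟩ := key a b s s0 s1
  obtain ⟨k3, k4⟩ := key c d t t0 t1
  rcases h with h | h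
  · have h' : ((max a b : ℤ) : ℝ) < ((min c d : ℤ) : ℝ) := by exact_mod_cast h
    linarith
  · have h' : ((max c d : ℤ) : ℝ) < ((min a b : ℤ) : ℝ) := by exact_mod_cast h
    linarith

theorem mon_real {a b c : ℤ} (h : mon a b c) (s t : ℝ) (_s0 : 0 ≤ s) (s1 : s ≤ 1)
    (t0 : 0 ≤ t) (_t1 : t ≤ 1) (he : (1 - s) * (a : ℝ) + s * b = (1 - t) * (b : ℝ) + t * c) :
    s = 1 ∨ t = 0 := by
  have e : (1 - s) * ((a : ℝ) - b) = t * ((c : ℝ) - b) := by linarith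
  rcases h with ⟨h1, h2⟩ | ⟨h1, h2⟩ | ⟨h1, h2⟩ | ⟨h1, h2⟩
  · left
    have h1' : (a : ℝ) < b := by exact_mod_cast h1
    have h2' : (b : ℝ) ≤ c := by exact_mod_cast h2
    by_contra hs
    have : s < 1 := lt_of_le_of_ne s1 hs
    nlinarith
  · right
    have h1' : (a : ℝ) ≤ b := by exact_mod_cast h1
    have h2' : (b : ℝ) < c := by exact_mod_cast h2
    by_contra ht
    have : 0 < t := lt_of_le_of_ne t0 (Ne.symm ht)
    nlinarith
  · left
    have h1' : (b : ℝ) < a := by exact_mod_cast h1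
    have h2' : (c : ℝ) ≤ b := by exact_mod_cast h2
    by_contra hs
    have : s < 1 := lt_of_le_of_ne s1 hs
    nlinarith
  · right
    have h1' : (b : ℝ) ≤ a := by exact_mod_cast h1
    have h2' : (c : ℝ) < b := by exact_mod_cast h2
    by_contra ht
    have : 0 < t := lt_of_le_of_ne t0 (Ne.symm ht)
    nlinarith

theorem P0_sep (i j : Fin 44) (h1 : i ≠ j) (h2 : i + 1 ≠ j) (h3 : j + 1 ≠ i) (s t : ℝ)
    (s0 : 0 ≤ s) (s1 : s ≤ 1) (t0 : 0 ≤ t) (t1 : t ≤ 1) : pt P0 i s ≠ pt P0 j t := by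
  intro h
  rcases sep_all i j h1 h2 h3 with k | k | k
  · exact sepb_real k s t s0 s1 t0 t1 (congrArg (fun x : V => x.1) h)
  · exact sepb_real k s t s0 s1 t0 t1 (congrArg (fun x : V => x.2.1) h)
  · exact sepb_real k s t s0 s1 t0 t1 (congrArg (fun x : V => x.2.2) h)

theorem P0_adj (i : Fin 44) (s t : ℝ) (s0 : 0 ≤ s) (s1 : s ≤ 1) (t0 : 0 ≤ t) (t1 : t ≤ 1)
    (h : pt P0 i s = pt P0 (i + 1) t) : pt P0 i s = P0 (i + 1) := by
  have key : s = 1 ∨ t = 0 := by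
    rcases mon_all i with k | k | k
    · exact mon_real k s t s0 s1 t0 t1 (congrArg (fun x : V => x.1) h)
    · exact mon_real k s t s0 s1 t0 t1 (congrArg (fun x : V => x.2.1) h)
    · exact mon_real k s t s0 s1 t0 t1 (congrArg (fun x : V => x.2.2) h)
  rcases key with rfl | rfl
  · unfold pt lerp
    simp
  · rw [h]
    unfold pt lerp
    simp

/-! ## The rotated polygon -/

theorem arc_bound : ∀ i : Fin 44, (i : ℕ) ≤ 35 → 0 ≤ (Z0 i).1 ∧ (Z0 i).1 ≤ 5 ∧ 0 ≤ (Z0 i).2.1 ∧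
    (Z0 i).2.1 ≤ 4 ∧ 0 ≤ (Z0 i).2.2 ∧ (Z0 i).2.2 ≤ 1 := by
  decide +kernel

theorem arc_bound' (i : Fin 44) (hi : (i : ℕ) ≤ 35) : 0 ≤ (P0 i).1 ∧ (P0 i).1 ≤ 5 ∧
    0 ≤ (P0 i).2.1 ∧ (P0 i).2.1 ≤ 4 ∧ 0 ≤ (P0 i).2.2 ∧ (P0 i).2.2 ≤ 1 := by
  obtain ⟨a1, a2, a3, a4, a5, a6⟩ := arc_bound i hi
  unfold P0 emb
  simp only
  refine ⟨?_, ?_, ?_, ?_, ?_, ?_⟩
  · exact_mod_cast a1
  · exact_mod_cast a2
  · exact_mod_cast a3
  · exact_mod_cast a4
  · exact_mod_cast a5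
  · exact_mod_cast a6

theorem phi_arc (x : V) (h : 0 ≤ x.1 ∧ x.1 ≤ 5 ∧ 0 ≤ x.2.1 ∧ x.2.1 ≤ 4 ∧ 0 ≤ x.2.2 ∧ x.2.2 ≤ 1) :
    phi x = 1 := by
  obtain ⟨a1, a2, a3, a4, a5, a6⟩ := h
  exact phi_one x (by nlinarith) (by linarith) (by linarith)

theorem rz_add (θ : ℝ) (x y : V) : rz θ (x + y) = rz θ x + rz θ y := by
  unfold rz
  ext
  · simp only [Prod.fst_add, Prod.snd_add, Prod.mk_add_mk]; ring
  · simp only [Prod.fst_add, Prod.snd_add, Prod.mk_add_mk]; ring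
  · simp only [Prod.snd_add, Prod.mk_add_mk]

theorem rz_smul (θ c : ℝ) (x : V) : rz θ (c • x) = c • rz θ x := by
  unfold rz
  ext
  · simp only [Prod.smul_fst, Prod.smul_snd, Prod.smul_mk, smul_eq_mul]; ring
  · simp only [Prod.smul_fst, Prod.smul_snd, Prod.smul_mk, smul_eq_mul]; ring
  · simp only [Prod.smul_snd, Prod.smul_mk, smul_eq_mul]

theorem axis_case : ∀ i : Fin 44, 35 ≤ (i : ℕ) → sh i → (Z0 i).1 = 0 ∧ (Z0 i).2.1 = 0 ∧
    (Z0 (i + 1)).1 = 0 ∧ (Z0 (i + 1)).2.1 = 0 := by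
  decide +kernel

/-- the isotopy carries the polygon along linearly -/
theorem RR_pt (t : ℝ) (i : Fin 44) (s : ℝ) (s0 : 0 ≤ s) (s1 : s ≤ 1) :
    RR (t, pt P0 i s) = pt (fun k => RR (t, P0 k)) i s := by
  by_cases h35 : (i : ℕ) < 35
  · -- an edge of the arc
    have hi := arc_bound' i h35.le
    have hi1 : ((i + 1 : Fin 44) : ℕ) ≤ 35 := by
      rw [Fin.val_add_one_of_lt]
      · omega
      · rw [Fin.lt_def]
        show (i : ℕ) < 43
        omega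
    have hi' := arc_bound' (i + 1) hi1
    have hpt : 0 ≤ (pt P0 i s).1 ∧ (pt P0 i s).1 ≤ 5 ∧ 0 ≤ (pt P0 i s).2.1 ∧
        (pt P0 i s).2.1 ≤ 4 ∧ 0 ≤ (pt P0 i s).2.2 ∧ (pt P0 i s).2.2 ≤ 1 := by
      obtain ⟨a1, a2, a3, a4, a5, a6⟩ := hi
      obtain ⟨b1, b2, b3, b4, b5, b6⟩ := hi'
      unfold pt lerp
      simp only [Prod.fst_add, Prod.snd_add, Prod.smul_fst, Prod.smul_snd, smul_eq_mul]
      refine ⟨?_, ?_, ?_, ?_, ?_, ?_⟩ <;> nlinarith
    rw [RR_phi_one t _ (phi_arc _ hpt)]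
    unfold pt lerp
    simp only
    rw [RR_phi_one t _ (phi_arc _ hi), RR_phi_one t _ (phi_arc _ hi'), rz_add, rz_smul, rz_smul]
  · by_cases hs : sh i
    · obtain ⟨a1, a2, a3, a4⟩ := axis_case i (by omega) hs
      have e1 : P0 i = (0, 0, ((Z0 i).2.2 : ℝ)) := by
        unfold P0 emb
        rw [a1, a2]
        norm_num
      have e2 : P0 (i + 1) = (0, 0, ((Z0 (i + 1)).2.2 : ℝ)) := by
        unfold P0 emb
        rw [a3, a4]
        norm_num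
      unfold pt lerp
      simp only
      rw [e1, e2, RR_axis, RR_axis]
      have e3 : (1 - s) • ((0, 0, ((Z0 i).2.2 : ℝ)) : V) + s • ((0, 0, ((Z0 (i + 1)).2.2 : ℝ)) : V) =
          (0, 0, (1 - s) * ((Z0 i).2.2 : ℝ) + s * ((Z0 (i + 1)).2.2 : ℝ)) := by
        simp
      rw [e3, RR_axis]
    · have h3 : i = 38 ∨ i = 39 ∨ i = 40 := by
        unfold sh at hs
        tauto
      have f : ∀ r : ℝ, 0 ≤ r → r ≤ 1 → RR (t, pt P0 i r) = pt P0 i r := by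
        intro r r0 r1
        apply RR_phi_zero
        apply phi_zero
        rcases h3 with rfl | rfl | rfl
        · rw [pt38]
          right; left
          show (3 : ℝ) ≤ 4 + 160 * r
          linarith
        · rw [pt39]
          left
          norm_num
        · rw [pt40]
          right; right
          show -163 + 160 * r ≤ -2
          linarith
      have f0 := f 0 le_rfl zero_le_one
      have f1 := f 1 zero_le_one le_rfl
      have e0 : pt P0 i 0 = P0 i := by unfold pt lerp; simp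
      have e1 : pt P0 i 1 = P0 (i + 1) := by unfold pt lerp; simp
      rw [e0] at f0
      rw [e1] at f1
      rw [f s s0 s1]
      show lerp (P0 i) (P0 (i + 1)) s = lerp (RR (t, P0 i)) (RR (t, P0 (i + 1))) s
      rw [f0, f1]

end

end H325Gr
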