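import Pool.Agent.H325Gr.Loop

/-!
# The loop of configurations
-/

set_option autoImplicit false

namespace H325Gr

open KN Filter Topology Set

noncomputable section

/-- vectors in coordinates as elements of Euclidean space -/
def toE : V →ₗ[ℝ] E3 where
  toFun p := WithLp.toLp 2 ![p.1, p.2.1, p.2.2]
  map_add' p q := by
    ext i
    fin_cases i <;> simp
  map_smul' c p := by
    ext i
    fin_cases i <;> simp

theorem toE_0 (p : V) : toE p 0 = p.1 := rfl
theorem toE_1 (p : V) : toE p 1 = p.2.1 := rfl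
theorem toE_2 (p : V) : toE p 2 = p.2.2 := rfl

theorem toE_inj (p q : V) (h : toE p = toE q) : p = q := by
  have h0 := congrArg (fun x : E3 => x 0) h
  have h1 := congrArg (fun x : E3 => x 1) h
  have h2 := congrArg (fun x : E3 => x 2) h
  simp only [toE_0, toE_1, toE_2] at h0 h1 h2
  ext
  · exact h0
  · exact h1
  · exact h2

theorem toE_cont : Continuous toE := by
  apply LinearMap.continuous_of_finiteDimensional

theorem toE_norm_sq (p : V) : ‖toE p‖ ^ 2 = p.1 ^ 2 + p.2.1 ^ 2 + p.2.2 ^ 2 := by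
  rw [← real_inner_self_eq_norm_sq, ← dt3_inner]
  unfold dt3
  rw [toE_0, toE_1, toE_2]
  ring

/-- the edge vectors -/
def D0 (i : Fin 44) : Z3 := Z0 (i + 1) - Z0 i

theorem D0_norm : ∀ i : Fin 44,
    (D0 i).1 ^ 2 + (D0 i).2.1 ^ 2 + (D0 i).2.2 ^ 2 = L0 i ^ 2 := by
  decide +kernel

/-- the rotated edge vectors -/
def wv (t : ℝ) (i : Fin 44) : V :=
  if (i : ℕ) < 35 then rz (2 * Real.pi * t) (emb (D0 i)) else emb (D0 i)

theorem wv_norm (t : ℝ) (i : Fin 44) :
    (wv t i).1 ^ 2 + (wv t i).2.1 ^ 2 + (wv t i).2.2 ^ 2 = ell i ^ 2 := by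
  have h : (emb (D0 i)).1 ^ 2 + (emb (D0 i)).2.1 ^ 2 + (emb (D0 i)).2.2 ^ 2 = ell i ^ 2 := by
    unfold emb ell
    simp only
    exact_mod_cast D0_norm i
  unfold wv
  split_ifs
  · rw [rz_norm]
    exact h
  · exact h

theorem unit_wv (t : ℝ) (i : Fin 44) : ‖toE ((ell i)⁻¹ • wv t i)‖ = 1 := by
  have h1 : ‖toE (wv t i)‖ ^ 2 = ell i ^ 2 := by
    rw [toE_norm_sq, wv_norm]
  have h2 : ‖toE (wv t i)‖ = ell i := by
    have := abs_eq_abs.2 (sq_eq_sq_iff_abs_eq_abs _ _ |>.1 h1 |> fun h => abs_eq_abs.1 h)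
    rwa [abs_norm, abs_of_pos (ell_pos i)] at this
  rw [map_smul, norm_smul, h2, Real.norm_eq_abs, abs_of_pos (inv_pos.2 (ell_pos i)),
    inv_mul_cancel₀ (ell_pos i).ne']

/-- the vertices, with all natural numbers as indices -/
def Z1 (k : ℕ) : Z3 := zl.getD (k % 44) 0

theorem Z1_eq (i : Fin 44) : Z1 i = Z0 i := by
  unfold Z1 Z0
  rw [Nat.mod_eq_of_lt i.2]

theorem Z1_succ (i : Fin 44) : Z1 ((i : ℕ) + 1) = Z0 (i + 1) := by
  unfold Z1 Z0
  rw [Fin.val_add, Fin.val_one]

/-- the rotated vertices -/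
def cv (t : ℝ) (k : ℕ) : V :=
  if k ≤ 35 then rz (2 * Real.pi * t) (emb (Z1 k)) else emb (Z1 k)

theorem emb_sub (a b : Z3) : emb (a - b) = emb a - emb b := by
  unfold emb
  ext
  · simp
  · simp
  · simp

theorem cv_step (t : ℝ) (i : Fin 44) : cv t ((i : ℕ) + 1) = cv t i + wv t i := by
  have e : emb (Z1 ((i : ℕ) + 1)) = emb (Z1 i) + emb (D0 i) := by
    unfold D0
    rw [Z1_succ, Z1_eq, emb_sub]
    abel
  unfold cv wv
  rcases lt_trichotomy (i : ℕ) 35 with h | h | h
  · rw [if_pos (by omega), if_pos (by omega), if_pos h, e, rz_add]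
  · rw [if_neg (by omega), if_pos (by omega), if_neg (by omega), e]
    have h35 : Z1 i = (0, 0, 1) := by
      rw [h]
      decide
    rw [h35]
    have : rz (2 * Real.pi * t) (emb (0, 0, 1)) = emb (0, 0, 1) := by
      unfold emb
      simp only [Int.cast_zero, Int.cast_one]
      exact rz_axis _ _
    rw [this]
  · rw [if_neg (by omega), if_neg (by omega), if_neg (by omega), e]

theorem cv_sum (t : ℝ) (k : ℕ) (hk : k ≤ 44) :
    ∑ i : Fin 44, (if (i : ℕ) < k then wv t i else 0) = cv t k := by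
  induction k with
  | zero =>
    have e : cv t 0 = 0 := by
      unfold cv
      rw [if_pos (by omega)]
      have h0 : Z1 0 = (0, 0, 0) := by decide
      rw [h0]
      have := rz_axis (2 * Real.pi * t) 0
      unfold emb
      simp only [Int.cast_zero]
      rw [this]
      rfl
    rw [e]
    simp
  | succ k ih =>
    have ih' := ih (by omega)
    have h1 := cv_step t ⟨k, by omega⟩
    simp only at h1
    rw [h1, ← ih']
    have h : ∀ j : Fin 44, (if (j : ℕ) < k + 1 then wv t j else 0) =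
        (if (j : ℕ) < k then wv t j else 0) +
          (if j = ⟨k, by omega⟩ then wv t j else 0) := by
      intro j
      by_cases h1 : (j : ℕ) < k
      · rw [if_pos (by omega), if_pos h1, if_neg (by rw [Fin.ext_iff]; simp only; omega), add_zero]
      · by_cases h2 : j = ⟨k, by omega⟩
        · rw [if_pos (by rw [h2]; simp), if_neg h1, if_pos h2, zero_add]
        · have : ¬ (j : ℕ) < k + 1 := by
            intro h3
            apply h2
            apply Fin.ext
            simp only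
            omega
          rw [if_neg this, if_neg h1, if_neg h2, add_zero]
    rw [Finset.sum_congr rfl (fun j _ => h j), Finset.sum_add_distrib,
      Finset.sum_ite_eq' Finset.univ]
    simp

theorem sum_toE (t : ℝ) (k : ℕ) (hk : k ≤ 44) :
    ∑ i : Fin 44, (if (i : ℕ) < k then ell i • toE ((ell i)⁻¹ • wv t i) else 0) = toE (cv t k) := by
  rw [← cv_sum t k hk, map_sum]
  apply Finset.sum_congr rfl
  intro i _
  split_ifs
  · rw [← map_smul, smul_inv_smul₀ (ell_pos i).ne']
  · rw [map_zero]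

/-- the loop of configurations -/
def UU (t : ℝ) : Conf ell :=
  ⟨fun i => ⟨toE ((ell i)⁻¹ • wv t i), mem_sphere_zero_iff_norm.2 (unit_wv t i)⟩, by
    have h := sum_toE t 44 le_rfl
    have e : cv t 44 = 0 := by
      unfold cv
      rw [if_neg (by omega)]
      have h0 : Z1 44 = (0, 0, 0) := by decide
      rw [h0]
      unfold emb
      simp
    rw [e, map_zero] at h
    refine Eq.trans ?_ h
    apply Finset.sum_congr rfl
    intro i _
    rw [if_pos i.2]⟩

theorem vert_UU (t : ℝ) (k : ℕ) (hk : k ≤ 44) : vert (UU t) k = toE (cv t k) :=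
  sum_toE t k hk

theorem cv_eq (t : ℝ) (i : Fin 44) : cv t i = RR (t, P0 i) := by
  unfold cv
  split_ifs with h
  · rw [RR_phi_one t _ (phi_arc _ (arc_bound' i h)), Z1_eq]
    rfl
  · rw [Z1_eq]
    show P0 i = _
    by_cases hs : sh i
    · obtain ⟨a1, a2, -, -⟩ := axis_case i (by omega) hs
      have e1 : P0 i = (0, 0, ((Z0 i).2.2 : ℝ)) := by
        unfold P0 emb
        rw [a1, a2]
        norm_num
      rw [e1, RR_axis]
    · have h3 : i = 38 ∨ i = 39 ∨ i = 40 := by
        unfold sh at hs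
        tauto
      symm
      apply RR_phi_zero
      apply phi_zero
      have e0 : P0 i = pt P0 i 0 := by unfold pt lerp; simp
      rw [e0]
      rcases h3 with rfl | rfl | rfl
      · rw [pt38]
        right; left
        norm_num
      · rw [pt39]
        left
        norm_num
      · rw [pt40]
        right; right
        norm_num

theorem UU38 (t : ℝ) : ((UU t).1 38 : E3) = toE (-(3 / 5), 0, 4 / 5) := by
  show toE ((ell 38)⁻¹ • wv t 38) = _
  congr 1
  unfold wv ell emb
  have e1 : D0 38 = (-120, 0, 160) := by decide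
  have e2 : L0 38 = 200 := by decide
  rw [e1, e2, if_neg (by decide)]
  ext <;> simp <;> norm_num

theorem UU39 (t : ℝ) : ((UU t).1 39 : E3) = toE (0, 0, -1) := by
  show toE ((ell 39)⁻¹ • wv t 39) = _
  congr 1
  unfold wv ell emb
  have e1 : D0 39 = (0, 0, -327) := by decide
  have e2 : L0 39 = 327 := by decide
  rw [e1, e2, if_neg (by decide)]
  ext <;> simp

theorem nrm_base (p : V) : nrm (toE (-(3 / 5), 0, 4 / 5)) (toE (0, 0, -1)) (toE p) = p := by
  unfold nrm dt3 dd3
  simp only [toE_0, toE_1, toE_2]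
  ext
  · simp only; ring
  · simp only; ring
  · simp only; ring

theorem PP_UU (t : ℝ) : PP (UU t) = fun k => RR (t, P0 k) := by
  funext k
  unfold PP
  rw [UU38, UU39, vert_UU t k (by have := k.2; omega), nrm_base, cv_eq]

theorem UU_cont : Continuous UU := by
  unfold UU
  apply Continuous.subtype_mk
  apply continuous_pi
  intro i
  apply Continuous.subtype_mk
  apply toE_cont.comp
  unfold wv
  split_ifs
  · unfold rz
    fun_prop
  · fun_prop

theorem edge_UU (t : ℝ) (i : Fin 44) (x : E3) (hx : x ∈ edge (UU t) i) :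
    ∃ s : ℝ, 0 ≤ s ∧ s ≤ 1 ∧ x = toE (RR (t, pt P0 i s)) := by
  obtain ⟨a, b, ha, hb, hab, rfl⟩ := hx
  refine ⟨b, hb, by linarith, ?_⟩
  rw [RR_pt t i b hb (by linarith)]
  have e1 : vert (UU t) i = toE (RR (t, P0 i)) := by
    rw [vert_UU t i (by have := i.2; omega), cv_eq]
  have e2 : vert (UU t) (i + 1) = toE (RR (t, P0 (i + 1))) := by
    rw [← vert_succ, vert_UU t _ (i + 1 : Fin 44).2.le, cv_eq]
  rw [e1, e2, ← map_smul, ← map_smul, ← map_add]
  have : a = 1 - b := by linarith
  rw [this]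
  rfl

theorem UU_embedded (t : ℝ) : ¬ SelfInt (UU t) := by
  rintro (⟨i, j, h1, h2, h3, x, hx1, hx2⟩ | ⟨i, j, h1, x, ⟨hx1, hx2⟩, hx3⟩)
  · obtain ⟨s, s0, s1, rfl⟩ := edge_UU t i x hx1
    obtain ⟨r, r0, r1, hr⟩ := edge_UU t j _ hx2
    have h4 := RR_inj t (toE_inj _ _ hr)
    rw [next_iff] at h2 h3
    exact P0_sep i j h1 h2 h3 s r s0 s1 r0 r1 h4
  · obtain ⟨s, s0, s1, rfl⟩ := edge_UU t i x hx1
    obtain ⟨r, r0, r1, hr⟩ := edge_UU t j _ hx2
    have h4 := RR_inj t (toE_inj _ _ hr)
    rw [next_iff] at h1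
    subst h1
    apply hx3
    rw [P0_adj i s r s0 s1 r0 r1 h4, vert_UU t _ (i + 1 : Fin 44).2.le, cv_eq]

end

end H325Gr
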