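import Pool.Agent.H246K2.LIP
import Pool.Agent.H246K2.NEAR
import Pool.Agent.H246K2.SEG2

/-!
# A canonical, jointly continuous family of homeomorphisms of the space that move one polygon to
another nearby polygon (McShane extension with parameters)
-/

set_option autoImplicit false

namespace H325Gr

open KN Filter Topology Set

/-- closed polygons with `n + 1` vertices -/
abbrev Poly (n : ℕ) := Fin (n + 1) → V

/-- the point with parameter `u` on the edge `i` -/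
noncomputable def pt {n : ℕ} (p : Poly n) (i : Fin (n + 1)) (u : ℝ) : V := lerp (p i) (p (i + 1)) u

theorem pt_sub {n : ℕ} (p q : Poly n) (i : Fin (n + 1)) (u : ℝ) :
    pt p i u - pt q i u = pt (p - q) i u := by
  unfold pt lerp
  simp only [Pi.sub_apply]
  module

theorem pt_bound {n : ℕ} (p : Poly n) (i : Fin (n + 1)) (u : ℝ) (h0 : 0 ≤ u) (h1 : u ≤ 1) :
    ‖pt p i u‖ ≤ ‖p‖ :=
  K2LIP.lerp_bound (norm_le_pi_norm p i) (norm_le_pi_norm p (i + 1)) h0 h1

theorem mem_ps {n : ℕ} (p : Poly n) (x : V) :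
    x ∈ ps (List.ofFn p) ↔ ∃ (i : Fin (n + 1)) (u : ℝ), (0 ≤ u ∧ u ≤ 1) ∧ x = pt p i u :=
  K2NEAR.mem_ps p x

/-- the displacement from `p` to `q` is `1/2`-Lipschitz on `p` and the point `v0` -/
def Good {n : ℕ} (v0 : V) (p q : Poly n) : Prop :=
  (∀ (i j : Fin (n + 1)) (u v : ℝ), 0 ≤ u → u ≤ 1 → 0 ≤ v → v ≤ 1 →
    ‖pt (q - p) i u - pt (q - p) j v‖ ≤ 1 / 2 * ‖pt p i u - pt p j v‖) ∧
  ∀ (i : Fin (n + 1)) (u : ℝ), 0 ≤ u → u ≤ 1 → ‖pt (q - p) i u‖ ≤ 1 / 2 * ‖pt p i u - v0‖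

/-- McShane extension for indexed data -/
theorem ext_idx {ι M : Type*} [PseudoMetricSpace M] (X : ι → M) (Y : ι → ℝ) (K : NNReal)
    (h : ∀ i j, |Y i - Y j| ≤ K * dist (X i) (X j)) :
    ∃ g : M → ℝ, LipschitzWith K g ∧ ∀ i, g (X i) = Y i := by
  classical
  let f : M → ℝ := fun x => if hx : ∃ i, X i = x then Y hx.choose else 0
  have hf : ∀ i, f (X i) = Y i := by
    intro i
    have hx : ∃ j, X j = X i := ⟨i, rfl⟩
    have e : f (X i) = Y hx.choose := dif_pos hx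
    rw [e]
    have := h hx.choose i
    rw [hx.choose_spec, dist_self, mul_zero] at this
    have := abs_nonpos_iff.1 this
    linarith
  have hL : LipschitzOnWith K f (range X) := by
    apply LipschitzOnWith.of_dist_le_mul
    rintro _ ⟨i, rfl⟩ _ ⟨j, rfl⟩
    rw [hf, hf, Real.dist_eq]
    exact h i j
  obtain ⟨g, hg, he⟩ := hL.extend_real
  exact ⟨g, hg, fun i => by rw [← he ⟨i, rfl⟩, hf]⟩

/-- the same with values in `V` -/
theorem ext_idx_V {ι M : Type*} [PseudoMetricSpace M] (X : ι → M) (Y : ι → V) (K : NNReal)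
    (h : ∀ i j, ‖Y i - Y j‖ ≤ K * dist (X i) (X j)) :
    ∃ g : M → V, LipschitzWith K g ∧ ∀ i, g (X i) = Y i := by
  obtain ⟨g1, h1, e1⟩ := ext_idx X (fun i => (Y i).1) K (fun i j => by
    refine le_trans ?_ (h i j)
    have := norm_fst_le (Y i - Y j)
    simpa [Real.norm_eq_abs] using this)
  obtain ⟨g2, h2, e2⟩ := ext_idx X (fun i => (Y i).2.1) K (fun i j => by
    refine le_trans ?_ (h i j)
    have h1 := norm_snd_le (Y i - Y j)
    have h2 := norm_fst_le (Y i - Y j).2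
    have h3 := h2.trans h1
    simpa [Real.norm_eq_abs] using h3)
  obtain ⟨g3, h3, e3⟩ := ext_idx X (fun i => (Y i).2.2) K (fun i j => by
    refine le_trans ?_ (h i j)
    have h1 := norm_snd_le (Y i - Y j)
    have h2 := norm_snd_le (Y i - Y j).2
    have h3 := h2.trans h1
    simpa [Real.norm_eq_abs] using h3)
  refine ⟨fun x => (g1 x, g2 x, g3 x), ?_, fun i => by simp only [e1, e2, e3]⟩
  have := h1.prodMk (h2.prodMk h3)
  simpa using this

/-- a small Lipschitz perturbation of the identity is a homeomorphism -/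
theorem homeo_of_lip (D : V → V) (hD : LipschitzWith (3 / 4) D) :
    ∃ h : V ≃ₜ V, ∀ x, h x = x + D x := by
  have happ : ApproximatesLinearOn (fun x : V => x + D x)
      ((ContinuousLinearEquiv.refl ℝ V : V ≃L[ℝ] V) : V →L[ℝ] V) univ (3 / 4) := by
    intro x _ y _
    have h1 := hD.dist_le_mul x y
    rw [dist_eq_norm, dist_eq_norm] at h1
    have : x + D x - (y + D y) -
        ((ContinuousLinearEquiv.refl ℝ V : V ≃L[ℝ] V) : V →L[ℝ] V) (x - y) = D x - D y := by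
      simp only [ContinuousLinearEquiv.coe_refl, ContinuousLinearMap.coe_id', id_eq]
      abel
    rw [this]
    exact h1
  have hc : Subsingleton V ∨ (3 / 4 : NNReal) <
      ‖((ContinuousLinearEquiv.refl ℝ V).symm : V →L[ℝ] V)‖₊⁻¹ := by
    right
    have h1 : ‖((ContinuousLinearEquiv.refl ℝ V).symm : V →L[ℝ] V)‖₊ = 1 := by
      rw [ContinuousLinearEquiv.refl_symm, ContinuousLinearEquiv.coe_refl]
      exact ContinuousLinearMap.nnnorm_id
    rw [h1, inv_one]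
    rw [div_lt_one (by norm_num)]
    norm_num
  exact ⟨happ.toHomeomorph _ hc, fun x => rfl⟩

theorem mcs_family (n : ℕ) (v0 : V) : ∃ F : (Poly n × Poly n) × V → V, Continuous F ∧
    (∀ z, ∃ h : V ≃ₜ V, ∀ x, h x = F (z, x)) ∧
    ∀ p q : Poly n, Good v0 p q →
      (∀ (i : Fin (n + 1)) (u : ℝ), 0 ≤ u → u ≤ 1 → F ((p, q), pt p i u) = pt q i u) ∧
      F ((p, q), v0) = v0 := by
  -- the index set
  let ι : Type := {z : (Poly n × Poly n) × (Fin (n + 1) × ℝ) //
      Good v0 z.1.1 z.1.2 ∧ 0 ≤ z.2.2 ∧ z.2.2 ≤ 1} ⊕ {z : Poly n × Poly n // Good v0 z.1 z.2}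
  let c : ℝ := 10
  let X : ι → (Poly n × Poly n) × V := fun z => match z with
    | Sum.inl z => (c • z.1.1, pt z.1.1.1 z.1.2.1 z.1.2.2)
    | Sum.inr z => (c • z.1, v0)
  let Y : ι → V := fun z => match z with
    | Sum.inl z => pt (z.1.1.2 - z.1.1.1) z.1.2.1 z.1.2.2
    | Sum.inr _ => 0
  have hX1 : ∀ a b : (Poly n × Poly n), ∀ x y : V, ‖a - b‖ ≤ 1 / 10 * dist (c • a, x) (c • b, y) := by
    intro a b x y
    have h1 : dist (c • a) (c • b) ≤ dist (c • a, x) (c • b, y) := by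
      rw [Prod.dist_eq]; exact le_max_left _ _
    rw [dist_eq_norm, ← smul_sub, norm_smul] at h1
    have h2 : ‖c‖ = 10 := by simp [c]
    rw [h2] at h1
    linarith
  have hX2 : ∀ a b : (Poly n × Poly n), ∀ x y : V, ‖x - y‖ ≤ dist (a, x) (b, y) := by
    intro a b x y
    rw [Prod.dist_eq, ← dist_eq_norm]
    exact le_max_right _ _
  have hLL : ∀ (a b : {z : (Poly n × Poly n) × (Fin (n + 1) × ℝ) //
      Good v0 z.1.1 z.1.2 ∧ 0 ≤ z.2.2 ∧ z.2.2 ≤ 1}), ‖Y (Sum.inl a) - Y (Sum.inl b)‖ ≤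
      3 / 4 * dist (X (Sum.inl a)) (X (Sum.inl b)) := by
    rintro ⟨⟨⟨p, q⟩, ⟨i, u⟩⟩, hg, hu0, hu1⟩ ⟨⟨⟨p', q'⟩, ⟨i', u'⟩⟩, hg', hu0', hu1'⟩
    show ‖pt (q - p) i u - pt (q' - p') i' u'‖ ≤
      3 / 4 * dist (c • (p, q), pt p i u) (c • (p', q'), pt p' i' u')
    have k1 := hX1 (p, q) (p', q') (pt p i u) (pt p' i' u')
    have k2 := hX2 (c • (p, q)) (c • (p', q')) (pt p i u) (pt p' i' u')
    set M := dist (c • (p, q), pt p i u) (c • (p', q'), pt p' i' u') with hM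
    have k3 : ‖p - p'‖ ≤ 1 / 10 * M := (norm_fst_le ((p, q) - (p', q'))).trans k1
    have k4 : ‖q - q'‖ ≤ 1 / 10 * M := (norm_snd_le ((p, q) - (p', q'))).trans k1
    have k5 : ‖pt (q - p) i u - pt (q' - p') i u‖ ≤ ‖q - q'‖ + ‖p - p'‖ := by
      rw [pt_sub]
      have e : q - p - (q' - p') = (q - q') - (p - p') := by abel
      rw [e]
      exact (pt_bound _ _ _ hu0 hu1).trans (norm_sub_le _ _)
    have k6 := hg'.1 i i' u u' hu0 hu1 hu0' hu1'
    have k7 : ‖pt p' i u - pt p' i' u'‖ ≤ ‖pt p' i u - pt p i u‖ + ‖pt p i u - pt p' i' u'‖ := by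
      have := norm_add_le (pt p' i u - pt p i u) (pt p i u - pt p' i' u')
      rwa [sub_add_sub_cancel] at this
    have k8 : ‖pt p' i u - pt p i u‖ ≤ ‖p - p'‖ := by
      rw [norm_sub_rev, pt_sub]
      exact pt_bound _ _ _ hu0 hu1
    have k9 : ‖pt (q - p) i u - pt (q' - p') i' u'‖ ≤
        ‖pt (q - p) i u - pt (q' - p') i u‖ + ‖pt (q' - p') i u - pt (q' - p') i' u'‖ := by
      have := norm_add_le (pt (q - p) i u - pt (q' - p') i u)
        (pt (q' - p') i u - pt (q' - p') i' u')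
      rwa [sub_add_sub_cancel] at this
    linarith
  have hLR : ∀ (a : {z : (Poly n × Poly n) × (Fin (n + 1) × ℝ) //
      Good v0 z.1.1 z.1.2 ∧ 0 ≤ z.2.2 ∧ z.2.2 ≤ 1}) (b : {z : Poly n × Poly n // Good v0 z.1 z.2}),
      ‖Y (Sum.inl a) - Y (Sum.inr b)‖ ≤ 3 / 4 * dist (X (Sum.inl a)) (X (Sum.inr b)) := by
    rintro ⟨⟨⟨p, q⟩, ⟨i, u⟩⟩, hg, hu0, hu1⟩ ⟨⟨p', q'⟩, hg'⟩
    show ‖pt (q - p) i u - 0‖ ≤ 3 / 4 * dist (c • (p, q), pt p i u) (c • (p', q'), v0)
    have k2 := hX2 (c • (p, q)) (c • (p', q')) (pt p i u) v0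
    have k3 := hg.2 i u hu0 hu1
    have k4 : 0 ≤ dist (c • (p, q), pt p i u) (c • (p', q'), v0) := dist_nonneg
    rw [sub_zero]
    simp only at k3
    linarith
  obtain ⟨g, hg, he⟩ := ext_idx_V X Y (3 / 4) (by
    have e34 : ((3 / 4 : NNReal) : ℝ) = 3 / 4 := by norm_num
    rw [e34]
    rintro (a | a) (b | b)
    · exact hLL a b
    · exact hLR a b
    · rw [norm_sub_rev, dist_comm]
      exact hLR b a
    · show ‖(0 : V) - 0‖ ≤ _
      rw [sub_zero, norm_zero]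
      positivity)
  refine ⟨fun z => z.2 + g (c • z.1, z.2), ?_, ?_, ?_⟩
  · have := hg.continuous
    fun_prop
  · intro z
    apply homeo_of_lip (fun x => g (c • z, x))
    have h1 := hg.comp (LipschitzWith.prodMk_left (α := Poly n × Poly n) (β := V) (c • z))
    rw [mul_one] at h1
    exact h1
  · intro p q hpq
    refine ⟨fun i u h0 h1 => ?_, ?_⟩
    · have := he (Sum.inl ⟨((p, q), (i, u)), hpq, h0, h1⟩)
      show pt p i u + g (c • (p, q), pt p i u) = pt q i u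
      have e : g (c • (p, q), pt p i u) = pt (q - p) i u := this
      rw [e, ← pt_sub]
      abel
    · have := he (Sum.inr ⟨(p, q), hpq⟩)
      show v0 + g (c • (p, q), v0) = v0
      have e : g (c • (p, q), v0) = 0 := this
      rw [e, add_zero]

end H325Gr
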