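import Pool.Agent.H325Gr.Helix
import Pool.Agent.H325Gr.Pol

/-!
# The full rotation is not homotopic to the identity in the complement (rel. base point)
-/

set_option autoImplicit false

namespace H325Gr

open KN Filter Topology Set K2NONAB K3XGRP

/-- the base point -/
noncomputable def vb : V := (1 / 2, -(1 / 2), -(999 + 1 / 2))

theorem ff_low (x : V) (h1 : 0 ≤ x.1) (h2 : x.2.2 ≤ -2) : ff x = x := by
  unfold ff
  rw [Phi_id x h1, RR_phi_zero _ _ (phi_zero x (Or.inr (Or.inr h2))), Psi_id x h1]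

theorem ff_box (x : V) (h : x ∈ Bx) : ff x = x := by
  obtain ⟨a1, a2, a3, a4, a5, a6⟩ := h
  unfold ff
  rw [Phi_id x a1, RR_phi_one _ _ (phi_one x (by nlinarith) a5 a6), mul_one, rz_two_pi, Psi_id x a1]

theorem tr_p2 : Tr (TT gg) p2 1 := by
  refine ⟨fun _ => 1, rfl, rfl, fun t h0 h1 => ?_⟩
  refine Eventually.of_forall fun s a0 a1 => ?_
  rw [Path.extend_apply _ ⟨h0, h1⟩, Path.extend_apply _ ⟨a0, a1⟩, p2_apply, p2_apply, one_mul]
  have key : ∀ r : ℝ, 0 ≤ r → r ≤ 1 → Blk (cube (seg r)) ∧ (cube (seg r)).2.1 = -1 := by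
    intro r r0 r1
    unfold seg cube
    simp only
    have e1 : ⌊(1 / 2 : ℝ)⌋ = 0 := by
      rw [Int.floor_eq_iff]; norm_num
    have e2 : ⌊(-(1 / 2) : ℝ)⌋ = -1 := by
      rw [Int.floor_eq_iff]; norm_num
    have e3 : -3 ≤ ⌊(-(5 / 2) + 2 * r : ℝ)⌋ := by
      rw [Int.le_floor]; push_cast; linarith
    have e4 : ⌊(-(5 / 2) + 2 * r : ℝ)⌋ < 0 := by
      rw [Int.floor_lt]; push_cast; linarith
    rw [e1, e2]
    exact ⟨⟨Or.inr rfl, Or.inl rfl, e3, by simp only; omega⟩, rfl⟩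
  obtain ⟨k1, k2⟩ := key t h0 h1
  obtain ⟨k3, k4⟩ := key s a0 a1
  show (1 : S3) = gtr gg (cube (seg t)) (cube (seg s))
  rw [gtr_blk _ _ k1 k3, if_neg]
  rintro ⟨h, -⟩
  exact h (k2.trans k4.symm)

/-- the long vertical segment -/
noncomputable def p1 : Path (mc ww sap_ww (0, -1, -1000)) (mc ww sap_ww (0, -1, -3)) where
  toFun t := ⟨gam (0, -1, -1000) .zp (997 * t), gam_not_mem ww sap_ww _ _ _⟩
  continuous_toFun := by
    apply Continuous.subtype_mk
    exact (gam_cont _ _).comp (by fun_prop)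
  source' := by
    apply Subtype.ext
    show gam (0, -1, -1000) .zp (997 * 0) = mid (0, -1, -1000)
    rw [mul_zero, gam_zero]
  target' := by
    apply Subtype.ext
    show gam (0, -1, -1000) .zp (997 * 1) = mid (0, -1, -3)
    unfold gam mid vec
    ext <;> norm_num

theorem vb_eq : mid (0, -1, -1000) = vb := by
  unfold mid vb
  ext <;> norm_num

theorem no_isotopy (G : ℝ × V → V) (hG : Continuous G)
    (hGc : ∀ t x, x ∉ ps (List.ofFn P0) → G (t, x) ∉ ps (List.ofFn P0))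
    (hG0 : ∀ x, G (0, x) = x) (hG1 : ∀ x, G (1, x) = RR (1, x)) (hv : ∀ t, G (t, vb) = vb) :
    False := by
  -- the loop around the trefoil
  have hbox : ∀ l ∈ BB.tails, mid ((0, -1, -1) + pos l) ∈ Bx := by
    intro l hl
    have key : ∀ l ∈ BB.tails, 0 ≤ (((0, -1, -1) : Z3) + pos l).1 ∧
        (((0, -1, -1) : Z3) + pos l).1 ≤ 3 ∧ -4 ≤ (((0, -1, -1) : Z3) + pos l).2.1 ∧
        (((0, -1, -1) : Z3) + pos l).2.1 ≤ 3 ∧ -1 ≤ (((0, -1, -1) : Z3) + pos l).2.2 ∧
        (((0, -1, -1) : Z3) + pos l).2.2 ≤ 1 := by decide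
    obtain ⟨a1, a2, a3, a4, a5, a6⟩ := key l hl
    have b1 : (0 : ℝ) ≤ ((((0, -1, -1) : Z3) + pos l).1 : ℝ) := by exact_mod_cast a1
    have b2 : ((((0, -1, -1) : Z3) + pos l).1 : ℝ) ≤ 3 := by exact_mod_cast a2
    have b3 : (-4 : ℝ) ≤ ((((0, -1, -1) : Z3) + pos l).2.1 : ℝ) := by exact_mod_cast a3
    have b4 : ((((0, -1, -1) : Z3) + pos l).2.1 : ℝ) ≤ 3 := by exact_mod_cast a4
    have b5 : (-1 : ℝ) ≤ ((((0, -1, -1) : Z3) + pos l).2.2 : ℝ) := by exact_mod_cast a5
    have b6 : ((((0, -1, -1) : Z3) + pos l).2.2 : ℝ) ≤ 1 := by exact_mod_cast a6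
    unfold mid Bx
    refine ⟨?_, ?_, ?_, ?_, ?_, ?_⟩ <;> simp only <;> linarith
  obtain ⟨pW, hW, hWb⟩ := word_box gg ww sap_ww (0, -1, -1) BB hbox (0, -1, -1) (by decide)
  obtain ⟨b1, hb1⟩ := tr_exists flat_gg p1
  set h := hol gg (0, -1, -1) BB with hh
  set α := p1.trans (p2.trans (pW.trans (p2.symm.trans p1.symm))) with hα
  have hα1 : Tr (TT gg) α (b1 * (1 * (h * (1⁻¹ * b1⁻¹)))) :=
    tr_trans hb1 (tr_trans tr_p2 (tr_trans hW (tr_trans (tr_symm tr_p2) (tr_symm hb1))))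
  have hp1' : Tr (pb (TT gg) ff) p1 b1 := by
    apply tr_congr hb1
    intro t
    apply ff_low
    · show (0 : ℝ) ≤ _ + 1 / 2 + _ * _
      simp [vec]
    · show (_ : ℝ) + 1 / 2 + 997 * (t : ℝ) * _ ≤ -2
      have := t.2.2
      simp only [vec]
      push_cast
      linarith
  have hW' : Tr (pb (TT gg) ff) pW h := by
    apply tr_congr hW
    intro t
    exact ff_box _ (hWb t)
  have hα2 : Tr (pb (TT gg) ff) α
      (b1 * (Equiv.swap 0 1 * (h * ((Equiv.swap 0 1)⁻¹ * b1⁻¹)))) :=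
    tr_trans hp1' (tr_trans tr_helix (tr_trans hW' (tr_trans (tr_symm tr_helix) (tr_symm hp1'))))
  -- the homotopy
  have hmem : ∀ (t : ℝ) (x : Cmp (vl ww)), Phi.symm (G (t, Phi x.1)) ∉ ps (vl ww) := by
    intro t x
    rw [ps_iff, Homeomorph.apply_symm_apply]
    apply hGc
    rw [← ps_iff]
    exact x.2
  have hGv : ∀ t, Phi.symm (G (t, Phi vb)) = vb := by
    intro t
    have e : Phi vb = vb := Phi_id vb (by unfold vb; norm_num)
    rw [e, hv]
    exact Psi_id vb (by unfold vb; norm_num)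
  let F : ℝ → Cmp (vl ww) → Cmp (vl ww) := fun t x => ⟨Phi.symm (G (t, Phi x.1)), hmem t x⟩
  have hF : Continuous (fun z : ℝ × Cmp (vl ww) => F z.1 z.2) := by
    apply Continuous.subtype_mk
    have := Phi.symm.continuous
    have := Phi.continuous
    fun_prop
  have hFv : ∀ t, F t (mc ww sap_ww (0, -1, -1000)) = mc ww sap_ww (0, -1, -1000) := by
    intro t
    apply Subtype.ext
    show Phi.symm (G (t, Phi (mid (0, -1, -1000)))) = mid (0, -1, -1000)
    rw [vb_eq]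
    exact hGv t
  let α' : Path (mc ww sap_ww (0, -1, -1000)) (mc ww sap_ww (0, -1, -1000)) :=
    { toFun := fun r => F 1 (α r)
      continuous_toFun := hF.comp (by fun_prop : Continuous fun r => ((1 : ℝ), α r))
      source' := by rw [Path.source]; exact hFv 1
      target' := by rw [Path.target]; exact hFv 1 }
  have hhom : α.Homotopic α' := by
    refine ⟨⟨⟨⟨fun z => F z.1 (α z.2), ?_⟩, ?_, ?_⟩, ?_⟩⟩
    · exact hF.comp (by fun_prop : Continuous fun z : unitInterval × unitInterval =>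
        ((z.1 : ℝ), α z.2))
    · intro r
      apply Subtype.ext
      show Phi.symm (G (0, Phi (α r).1)) = (α r).1
      rw [hG0, Homeomorph.symm_apply_apply]
    · intro r
      rfl
    · intro t r hr
      rcases hr with rfl | hr
      · show F t (α 0) = α 0
        rw [Path.source]
        exact hFv t
      · rw [Set.mem_singleton_iff] at hr
        subst hr
        show F t (α 1) = α 1
        rw [Path.target]
        exact hFv t
  have hα' : Tr (TT gg) α' (b1 * (Equiv.swap 0 1 * (h * ((Equiv.swap 0 1)⁻¹ * b1⁻¹)))) := by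
    obtain ⟨u, hu0, hu1, hu⟩ := hα2
    refine ⟨u, hu0, hu1, fun t h0 h1 => ?_⟩
    filter_upwards [hu t h0 h1] with s hs a0 a1
    rw [hs a0 a1]
    have e : ∀ r : ℝ, 0 ≤ r → r ≤ 1 → (α'.extend r).1 = ff (α.extend r).1 := by
      intro r r0 r1
      rw [Path.extend_apply _ ⟨r0, r1⟩, Path.extend_apply _ ⟨r0, r1⟩]
      show Phi.symm (G (1, Phi (α ⟨r, ⟨r0, r1⟩⟩).1)) = ff _
      rw [hG1]
      rfl
    rw [e t h0 h1, e s a0 a1]
    rfl
  have hfin := tr_unique flat_gg hhom hα1 hα'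
  have h1 := mul_left_cancel hfin
  rw [one_mul, inv_one, one_mul, ← mul_assoc, ← mul_assoc] at h1
  have h2 := mul_right_cancel h1
  apply hol3
  rw [← hh]
  calc Equiv.swap 0 1 * h = (Equiv.swap 0 1 * h * (Equiv.swap 0 1)⁻¹) * Equiv.swap 0 1 := by
        rw [inv_mul_cancel_right]
    _ = h * Equiv.swap 0 1 := by rw [← h2]

end H325Gr
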