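import Mathlib

/-!
# The space of closed polygons with given side lengths (definitions)
-/

set_option autoImplicit false

namespace H325Gr

noncomputable section

/-- Euclidean space of dimension three -/
abbrev E3 := EuclideanSpace ℝ (Fin 3)

/-- the unit sphere -/
def S2 : Set E3 := Metric.sphere 0 1

/-- Closed polygons with side lengths `ℓ`: families `u` of unit vectors with
`∑ i, ℓ i • u i = 0`. -/
def Conf {n : ℕ} (ℓ : Fin n → ℝ) : Type :=
  {u : Fin n → S2 // ∑ i, ℓ i • (u i : E3) = 0}

variable {n : ℕ} {ℓ : Fin n → ℝ}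

/-- the topology of a subspace of the product of `n` spheres -/
instance : TopologicalSpace (Conf ℓ) := instTopologicalSpaceSubtype

/-- `v` is the image of `u` under an element `A` of `SO(3)` -/
def SameRot (u v : Conf ℓ) : Prop :=
  ∃ A ∈ Matrix.specialOrthogonalGroup (Fin 3) ℝ, ∀ (i : Fin n) (j : Fin 3),
    (v.1 i : E3) j = ∑ k, A j k * (u.1 i : E3) k

theorem SameRot.refl (u : Conf ℓ) : SameRot u u := by
  refine ⟨1, Submonoid.one_mem _, fun i j => ?_⟩
  simp [Matrix.one_apply]

theorem SameRot.symm {u v : Conf ℓ} (h : SameRot u v) : SameRot v u := by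
  obtain ⟨A, hA, h⟩ := h
  have hA' := Matrix.mem_specialOrthogonalGroup_iff.1 hA
  have h1 : A.transpose * A = 1 := (Matrix.mem_orthogonalGroup_iff' (Fin 3) ℝ).1 hA'.1
  refine ⟨A.transpose, ?_, fun i j => ?_⟩
  · rw [Matrix.mem_specialOrthogonalGroup_iff]
    refine ⟨?_, by rw [Matrix.det_transpose]; exact hA'.2⟩
    rw [Matrix.mem_orthogonalGroup_iff, Matrix.transpose_transpose]
    exact h1
  · have h2 : (A.transpose * A).mulVec (fun k => (u.1 i : E3) k) j = (u.1 i : E3) j := by
      rw [h1, Matrix.one_mulVec]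
    rw [← h2, ← Matrix.mulVec_mulVec]
    unfold Matrix.mulVec dotProduct
    apply Finset.sum_congr rfl
    intro k _
    rw [h i k]

theorem SameRot.trans {u v w : Conf ℓ} (h : SameRot u v) (h' : SameRot v w) : SameRot u w := by
  obtain ⟨A, hA, h⟩ := h
  obtain ⟨B, hB, h'⟩ := h'
  refine ⟨B * A, Submonoid.mul_mem _ hB hA, fun i j => ?_⟩
  have h2 : (B * A).mulVec (fun k => (u.1 i : E3) k) j = ∑ k, (B * A) j k * (u.1 i : E3) k := rfl
  rw [← h2, ← Matrix.mulVec_mulVec, h' i j]
  unfold Matrix.mulVec dotProduct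
  apply Finset.sum_congr rfl
  intro k _
  rw [h i k]

/-- equivalence by rotations -/
def rotSetoid (ℓ : Fin n → ℝ) : Setoid (Conf ℓ) where
  r := SameRot
  iseqv := ⟨SameRot.refl, SameRot.symm, SameRot.trans⟩

/-- The polygon space `M_ℓ`: closed polygons up to rotation. -/
def PolySpace (ℓ : Fin n → ℝ) : Type := Quotient (rotSetoid ℓ)

/-- the quotient topology -/
instance : TopologicalSpace (PolySpace ℓ) := instTopologicalSpaceQuotient

/-- the class of a closed polygon in the polygon space -/
def cls (u : Conf ℓ) : PolySpace ℓ := Quotient.mk (rotSetoid ℓ) u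

/-- The vertices `p_k = ∑_{i < k} ℓ_i u_i` of a closed polygon (so `p_0 = p_n = 0`). -/
def vert (u : Conf ℓ) (k : ℕ) : E3 :=
  ∑ i : Fin n, if (i : ℕ) < k then ℓ i • (u.1 i : E3) else 0

/-- The edge from `p_i` to `p_{i+1}`, for `i = 0, ..., n - 1`. -/
def edge (u : Conf ℓ) (i : Fin n) : Set E3 := segment ℝ (vert u i) (vert u (i + 1))

/-- `j` is the successor of `i` in the cyclic order of the edges -/
def Next (i j : Fin n) : Prop := ((i : ℕ) + 1) % n = j

/-- A configuration is self-intersecting if two non-adjacent edges have a common point or if two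
adjacent edges have a common point other than their shared vertex. -/
def SelfInt (u : Conf ℓ) : Prop :=
  (∃ i j : Fin n, i ≠ j ∧ ¬ Next i j ∧ ¬ Next j i ∧ (edge u i ∩ edge u j).Nonempty) ∨
  ∃ i j : Fin n, Next i j ∧ ∃ x ∈ edge u i ∩ edge u j, x ≠ vert u j

/-- The set `X` of self-intersecting configurations in `M_ℓ`. -/
def selfIntSet (ℓ : Fin n → ℝ) : Set (PolySpace ℓ) := {m | ∃ u : Conf ℓ, cls u = m ∧ SelfInt u}

end

end H325Gr
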