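import Pool.Agent.H325Gr.Prob
import Pool.Agent.H325Gr.Core

/-!
# Normal forms of closed polygons modulo rotations
-/

set_option autoImplicit false

namespace H325Gr

open KN Filter Topology Set

noncomputable section

/-- scalar product in coordinates -/
def dt3 (a v : E3) : ℝ := a 0 * v 0 + a 1 * v 1 + a 2 * v 2

/-- determinant in coordinates -/
def dd3 (a b v : E3) : ℝ :=
  a 0 * (b 1 * v 2 - b 2 * v 1) - a 1 * (b 0 * v 2 - b 2 * v 0) + a 2 * (b 0 * v 1 - b 1 * v 0)

/-- normalized coordinates of `v` with respect to `a`, `b` -/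
def nrm (a b v : E3) : V :=
  (-(5 / 3) * dt3 a v - 4 / 3 * dt3 b v, -(5 / 3) * dd3 a b v, -dt3 b v)

theorem dt3_inner (a v : E3) : dt3 a v = inner ℝ a v := by
  rw [PiLp.inner_apply, Fin.sum_univ_three]
  unfold dt3
  simp only [RCLike.inner_apply, conj_trivial]
  ring

/-- the action of a matrix -/
def act (A : Matrix (Fin 3) (Fin 3) ℝ) (x : E3) : E3 := Matrix.toEuclideanLin A x

theorem act_apply (A : Matrix (Fin 3) (Fin 3) ℝ) (x : E3) (j : Fin 3) :
    act A x j = A j 0 * x 0 + A j 1 * x 1 + A j 2 * x 2 := by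
  have : act A x j = ∑ k, A j k * x k := rfl
  rw [this, Fin.sum_univ_three]

theorem act_eq {n : ℕ} {ℓ : Fin n → ℝ} {u v : Conf ℓ} {A : Matrix (Fin 3) (Fin 3) ℝ}
    (h : ∀ (i : Fin n) (j : Fin 3), (v.1 i : E3) j = ∑ k, A j k * (u.1 i : E3) k) (i : Fin n) :
    (v.1 i : E3) = act A (u.1 i : E3) := by
  ext j
  rw [h i j]
  rfl

theorem act_vert {n : ℕ} {ℓ : Fin n → ℝ} {u v : Conf ℓ} {A : Matrix (Fin 3) (Fin 3) ℝ}
    (h : ∀ (i : Fin n) (j : Fin 3), (v.1 i : E3) j = ∑ k, A j k * (u.1 i : E3) k) (k : ℕ) :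
    vert v k = act A (vert u k) := by
  unfold act vert
  rw [map_sum]
  apply Finset.sum_congr rfl
  intro i _
  split_ifs
  · rw [map_smul, act_eq h i]
    rfl
  · rw [map_zero]

theorem dt3_act (A : Matrix (Fin 3) (Fin 3) ℝ) (hA : A ∈ Matrix.specialOrthogonalGroup (Fin 3) ℝ)
    (x y : E3) : dt3 (act A x) (act A y) = dt3 x y := by
  have hA' := Matrix.mem_specialOrthogonalGroup_iff.1 hA
  have h1 : A.transpose * A = 1 := (Matrix.mem_orthogonalGroup_iff' (Fin 3) ℝ).1 hA'.1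
  have h : ∀ i j, A 0 i * A 0 j + A 1 i * A 1 j + A 2 i * A 2 j = if i = j then 1 else 0 := by
    intro i j
    have := congrFun (congrFun h1 i) j
    rw [Matrix.mul_apply, Fin.sum_univ_three, Matrix.one_apply] at this
    exact this
  have h00 := h 0 0
  have h01 := h 0 1
  have h02 := h 0 2
  have h11 := h 1 1
  have h12 := h 1 2
  have h22 := h 2 2
  rw [if_pos rfl] at h00 h11 h22
  rw [if_neg (by decide)] at h01 h02 h12
  unfold dt3
  simp only [act_apply]
  linear_combination (x 0 * y 0) * h00 + (x 0 * y 1 + x 1 * y 0) * h01 +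
    (x 0 * y 2 + x 2 * y 0) * h02 + (x 1 * y 1) * h11 + (x 1 * y 2 + x 2 * y 1) * h12 +
    (x 2 * y 2) * h22

theorem dd3_act (A : Matrix (Fin 3) (Fin 3) ℝ) (hA : A ∈ Matrix.specialOrthogonalGroup (Fin 3) ℝ)
    (x y z : E3) : dd3 (act A x) (act A y) (act A z) = dd3 x y z := by
  have hd := (Matrix.mem_specialOrthogonalGroup_iff.1 hA).2
  rw [Matrix.det_fin_three] at hd
  unfold dd3
  simp only [act_apply]
  linear_combination (x 0 * (y 1 * z 2 - y 2 * z 1) - x 1 * (y 0 * z 2 - y 2 * z 0) +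
    x 2 * (y 0 * z 1 - y 1 * z 0)) * hd

theorem act_inj (A : Matrix (Fin 3) (Fin 3) ℝ) (hA : A ∈ Matrix.specialOrthogonalGroup (Fin 3) ℝ)
    (x y : E3) (h : act A x = act A y) : x = y := by
  have h1 : act A (x - y) = 0 := by
    unfold act at h ⊢
    rw [map_sub, h, sub_self]
  have h2 := dt3_act A hA (x - y) (x - y)
  rw [h1] at h2
  have h3 : dt3 (0 : E3) 0 = 0 := by unfold dt3; simp
  rw [h3, dt3_inner] at h2
  exact sub_eq_zero.1 (inner_self_eq_zero.1 h2.symm)

theorem nrm_rot (A : Matrix (Fin 3) (Fin 3) ℝ) (hA : A ∈ Matrix.specialOrthogonalGroup (Fin 3) ℝ)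
    (a b v : E3) : nrm (act A a) (act A b) (act A v) = nrm a b v := by
  unfold nrm
  rw [dt3_act A hA, dt3_act A hA, dd3_act A hA]

theorem nrm_add (a b v w : E3) : nrm a b (v + w) = nrm a b v + nrm a b w := by
  unfold nrm dt3 dd3
  ext
  · simp only [PiLp.add_apply, Prod.mk_add_mk]; ring
  · simp only [PiLp.add_apply, Prod.mk_add_mk]; ring
  · simp only [PiLp.add_apply, Prod.mk_add_mk]; ring

theorem nrm_smul (a b v : E3) (c : ℝ) : nrm a b (c • v) = c • nrm a b v := by
  unfold nrm dt3 dd3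
  ext
  · simp only [PiLp.smul_apply, Prod.smul_mk, smul_eq_mul]; ring
  · simp only [PiLp.smul_apply, Prod.smul_mk, smul_eq_mul]; ring
  · simp only [PiLp.smul_apply, Prod.smul_mk, smul_eq_mul]; ring

theorem nrm_zero (a b : E3) : nrm a b 0 = 0 := by
  have := nrm_smul a b 0 0
  rwa [zero_smul, zero_smul] at this

theorem nrm_eq_zero (a b v : E3) (ha : dt3 a a = 1) (hb : dt3 b b = 1) (hab : dt3 a b ^ 2 ≠ 1)
    (h : nrm a b v = 0) : v = 0 := by
  unfold nrm at h
  have h1 := congrArg (fun x : V => x.1) h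
  have h2 := congrArg (fun x : V => x.2.1) h
  have h3 := congrArg (fun x : V => x.2.2) h
  simp only [Prod.fst_zero, Prod.snd_zero] at h1 h2 h3
  have k3 : dt3 b v = 0 := by linarith
  have k1 : dt3 a v = 0 := by rw [k3] at h1; linarith
  have k2 : dd3 a b v = 0 := by linarith
  have key : dd3 a b v ^ 2 = dt3 a a * dt3 b b * dt3 v v + 2 * dt3 a b * dt3 b v * dt3 a v -
      dt3 a a * dt3 b v ^ 2 - dt3 b b * dt3 a v ^ 2 - dt3 v v * dt3 a b ^ 2 := by
    unfold dd3 dt3
    ring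
  rw [k1, k2, k3, ha, hb] at key
  have h4 : dt3 v v * (1 - dt3 a b ^ 2) = 0 := by linarith
  have h5 : dt3 v v = 0 := by
    rcases mul_eq_zero.1 h4 with h | h
    · exact h
    · exact absurd (by linarith) hab
  rw [dt3_inner] at h5
  exact inner_self_eq_zero.1 h5

theorem nrm_inj (a b v w : E3) (ha : dt3 a a = 1) (hb : dt3 b b = 1) (hab : dt3 a b ^ 2 ≠ 1)
    (h : nrm a b v = nrm a b w) : v = w := by
  have h1 : nrm a b (v + (-1 : ℝ) • w) = 0 := by
    rw [nrm_add, nrm_smul, h]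
    simp
  have h2 := nrm_eq_zero a b _ ha hb hab h1
  have h3 : v + (-1 : ℝ) • w = v - w := by
    rw [neg_smul, one_smul, sub_eq_add_neg]
  rw [h3] at h2
  exact sub_eq_zero.1 h2

/-- the side lengths -/
def L0 (i : Fin 44) : ℤ := if i = 38 ∨ i = 40 then 200 else if i = 39 then 327 else 1

/-- the side lengths as real numbers -/
def ell (i : Fin 44) : ℝ := (L0 i : ℝ)

theorem L0_pos : ∀ i, 0 < L0 i := by decide

theorem ell_pos (i : Fin 44) : 0 < ell i := by
  unfold ell
  exact_mod_cast L0_pos i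

theorem sphere_dt (u : S2) : dt3 (u : E3) (u : E3) = 1 := by
  rw [dt3_inner, real_inner_self_eq_norm_sq]
  have : ‖(u : E3)‖ = 1 := by
    exact mem_sphere_zero_iff_norm.1 u.2
  rw [this, one_pow]

/-- the index set of the short edges -/
def shF : Finset (Fin 44) := Finset.univ.filter (fun i => i ≠ 38 ∧ i ≠ 39 ∧ i ≠ 40)

theorem univ_split : (Finset.univ : Finset (Fin 44)) = insert 38 (insert 39 (insert 40 shF)) := by
  decide

theorem shF_card : shF.card = 41 := by decide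

theorem shF_L0 : ∀ i ∈ shF, L0 i = 1 := by decide

theorem sum_bound (s : Finset (Fin 44)) (f : Fin 44 → E3) (h : ∀ i ∈ s, ‖f i‖ ≤ 1) :
    ‖∑ i ∈ s, f i‖ ≤ s.card := by
  have h1 := norm_sum_le_of_le s h
  simpa using h1

theorem not_parallel' (u : Fin 44 → S2)
    (hs : ∑ i, ell i • (u i : E3) = 0) : dt3 (u 38 : E3) (u 39 : E3) ^ 2 ≠ 1 := by
  intro h
  rw [univ_split, Finset.sum_insert (by decide), Finset.sum_insert (by decide),
    Finset.sum_insert (by decide)] at hs
  have e38 : ell 38 = 200 := by unfold ell; norm_num [L0]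
  have e39 : ell 39 = 327 := by
    unfold ell
    have : L0 39 = 327 := by decide
    rw [this]
    norm_num
  have e40 : ell 40 = 200 := by
    unfold ell
    have : L0 40 = 200 := by decide
    rw [this]
    norm_num
  rw [e38, e39, e40] at hs
  have hrest : ‖∑ i ∈ shF, ell i • (u i : E3)‖ ≤ 41 := by
    have h1 : ∀ i ∈ shF, ‖ell i • (u i : E3)‖ ≤ 1 := by
      intro i hi
      have h2 : ell i = 1 := by
        unfold ell
        rw [shF_L0 i hi]
        norm_num
      have h3 : ‖(u i : E3)‖ = 1 := mem_sphere_zero_iff_norm.1 (u i).2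
      rw [h2, one_smul, h3]
    have h4 := sum_bound shF (fun i => ell i • (u i : E3)) h1
    rw [shF_card] at h4
    exact_mod_cast h4
  set r := ∑ i ∈ shF, ell i • (u i : E3) with hr
  set a := (u 38 : E3) with ha
  set b := (u 39 : E3) with hb
  set c := (u 40 : E3) with hc
  have hna : ‖a‖ = 1 := mem_sphere_zero_iff_norm.1 (u 38).2
  have hnb : ‖b‖ = 1 := mem_sphere_zero_iff_norm.1 (u 39).2
  have hnc : ‖c‖ = 1 := mem_sphere_zero_iff_norm.1 (u 40).2
  have e : (200 : ℝ) • a + (327 : ℝ) • b = -((200 : ℝ) • c + r) := by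
    rw [eq_neg_iff_add_eq_zero, ← hs]
    abel
  have hn : ‖(200 : ℝ) • a + (327 : ℝ) • b‖ = ‖(200 : ℝ) • c + r‖ := by
    rw [e, norm_neg]
  have hc200 : ‖(200 : ℝ) • c‖ = 200 := by
    rw [norm_smul, hnc]
    norm_num
  have hup : ‖(200 : ℝ) • c + r‖ ≤ 241 := by
    have := norm_add_le ((200 : ℝ) • c) r
    linarith
  have hlo : 159 ≤ ‖(200 : ℝ) • c + r‖ := by
    have := norm_sub_le_norm_add ((200 : ℝ) • c) r
    linarith
  have hsq : ‖(200 : ℝ) • a + (327 : ℝ) • b‖ ^ 2 = 200 ^ 2 + 327 ^ 2 + 2 * 200 * 327 * dt3 a b := by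
    rw [norm_add_sq_real, norm_smul, norm_smul, hna, hnb, inner_smul_left, inner_smul_right,
      ← dt3_inner]
    simp only [conj_trivial, Real.norm_eq_abs]
    norm_num
    ring
  rw [hn] at hsq
  have h1 : dt3 a b = 1 ∨ dt3 a b = -1 := by
    have h2 : (dt3 a b - 1) * (dt3 a b + 1) = 0 := by linear_combination h
    rcases mul_eq_zero.1 h2 with h3 | h3
    · left; linarith
    · right; linarith
  rcases h1 with h1 | h1
  · rw [h1] at hsq
    nlinarith
  · rw [h1] at hsq
    nlinarith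

theorem not_parallel (u : Conf ell) : dt3 (u.1 38 : E3) (u.1 39 : E3) ^ 2 ≠ 1 :=
  not_parallel' u.1 u.2

end

end H325Gr
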