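import Pool.Agent.H325Gr.Sec

/-!
# The normalized polygon of a configuration
-/

set_option autoImplicit false

namespace H325Gr

open KN Filter Topology Set

noncomputable section

variable {n : ℕ} {ℓ : Fin n → ℝ}

theorem vert_zero (u : Conf ℓ) : vert u 0 = 0 := by
  unfold vert
  simp

theorem vert_last (u : Conf ℓ) : vert u n = 0 := by
  have h := u.2
  unfold vert
  refine Eq.trans ?_ h
  apply Finset.sum_congr rfl
  intro i _
  rw [if_pos i.2]

theorem vert_step (u : Conf ℓ) (i : Fin n) : vert u (i + 1) = vert u i + ℓ i • (u.1 i : E3) := by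
  unfold vert
  have h : ∀ j : Fin n, (if (j : ℕ) < (i : ℕ) + 1 then ℓ j • (u.1 j : E3) else 0) =
      (if (j : ℕ) < i then ℓ j • (u.1 j : E3) else 0) +
        (if j = i then ℓ j • (u.1 j : E3) else 0) := by
    intro j
    by_cases h1 : (j : ℕ) < i
    · rw [if_pos (by omega), if_pos h1, if_neg (by intro h; subst h; omega), add_zero]
    · by_cases h2 : j = i
      · subst h2
        rw [if_pos (by omega), if_neg h1, if_pos rfl, zero_add]
      · have : ¬ (j : ℕ) < (i : ℕ) + 1 := by
          intro h3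
          apply h2
          apply Fin.ext
          omega
        rw [if_neg this, if_neg h1, if_neg h2, add_zero]
  rw [Finset.sum_congr rfl (fun j _ => h j), Finset.sum_add_distrib, Finset.sum_ite_eq' Finset.univ i]
  simp

theorem norm_u (u : Conf ℓ) (i : Fin n) : ‖(u.1 i : E3)‖ = 1 := by
  exact mem_sphere_zero_iff_norm.1 (u.1 i).2

theorem vert_ne (hℓ : ∀ i, 0 < ℓ i) (u : Conf ℓ) (i : Fin n) : vert u i ≠ vert u (i + 1) := by
  intro h
  rw [vert_step] at h
  have h1 : ℓ i • (u.1 i : E3) = 0 := by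
    have := add_eq_left.1 h.symm
    exact this
  have h2 := congrArg norm h1
  rw [norm_smul, norm_u, norm_zero, mul_one, Real.norm_eq_abs, abs_of_pos (hℓ i)] at h2
  exact (hℓ i).ne' h2

theorem vert_norm (hℓ : ∀ i, 0 < ℓ i) (u : Conf ℓ) (k : ℕ) : ‖vert u k‖ ≤ ∑ i, ℓ i := by
  unfold vert
  apply norm_sum_le_of_le
  intro i _
  split_ifs
  · rw [norm_smul, norm_u, mul_one, Real.norm_eq_abs, abs_of_pos (hℓ i)]
  · rw [norm_zero]
    exact (hℓ i).le

/-- the successor of the last vertex is the first vertex -/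
theorem vert_succ {m : ℕ} {ℓ : Fin (m + 1) → ℝ} (u : Conf ℓ) (i : Fin (m + 1)) :
    vert u ((i + 1 : Fin (m + 1)) : ℕ) = vert u ((i : ℕ) + 1) := by
  by_cases h : i = Fin.last m
  · subst h
    rw [Fin.last_add_one]
    simp only [Fin.val_zero, Fin.val_last]
    rw [vert_zero, vert_last]
  · rw [Fin.val_add_one_of_lt]
    exact Fin.lt_last_iff_ne_last.2 h

theorem next_iff {m : ℕ} (i j : Fin (m + 1)) : Next i j ↔ i + 1 = j := by
  unfold Next
  rw [Fin.ext_iff, Fin.val_add, Fin.val_one', Nat.add_mod_mod]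

theorem simple_of (m : ℕ) (g : Poly m) (h1 : ∀ i j, i ≠ j → Disj (g i, g (i + 1)) (g j, g (j + 1)))
    (h2 : ∀ i, g i ≠ g (i + 1)) : Simple (List.ofFn g) := by
  refine ⟨by simp, ?_, ?_⟩
  · rw [CONE.edges_ofFn, List.pairwise_ofFn]
    intro i j hij
    exact h1 i j hij.ne
  · intro e he
    rw [CONE.edges_ofFn, List.mem_ofFn] at he
    obtain ⟨i, rfl⟩ := he
    exact h2 i

theorem lerp_mem_edge (u : Conf ℓ) (i : Fin n) (s : ℝ) (h0 : 0 ≤ s) (h1 : s ≤ 1) :
    (1 - s) • vert u i + s • vert u (i + 1) ∈ edge u i :=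
  ⟨1 - s, s, by linarith, h0, by ring, rfl⟩

/-- the normalized polygon -/
def PP (u : Conf ell) : Poly 43 := fun k => nrm (u.1 38 : E3) (u.1 39 : E3) (vert u k)

theorem PP_lerp (u : Conf ell) (i : Fin 44) (s : ℝ) : pt (PP u) i s =
    nrm (u.1 38 : E3) (u.1 39 : E3) ((1 - s) • vert u i + s • vert u (i + 1)) := by
  rw [nrm_add, nrm_smul, nrm_smul]
  unfold pt lerp PP
  rw [vert_succ]

theorem PP_inj (u : Conf ell) (v w : E3)
    (h : nrm (u.1 38 : E3) (u.1 39 : E3) v = nrm (u.1 38 : E3) (u.1 39 : E3) w) : v = w :=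
  nrm_inj _ _ _ _ (sphere_dt _) (sphere_dt _) (not_parallel u) h

theorem PP_simple (u : Conf ell) (hu : ¬ SelfInt u) : Simple (List.ofFn (PP u)) := by
  unfold SelfInt at hu
  rw [not_or] at hu
  obtain ⟨hu1, hu2⟩ := hu
  push Not at hu1 hu2
  have key : ∀ (i j : Fin 44) (s t : ℝ), 0 ≤ s → s < 1 → 0 ≤ t → t < 1 →
      pt (PP u) i s = pt (PP u) j t → ¬ Next i j := by
    intro i j s t s0 s1 t0 t1 heq hn
    rw [PP_lerp, PP_lerp] at heq
    have h1 := PP_inj u _ _ heq
    have h2 := hu2 i j hn _ ⟨lerp_mem_edge u i s s0 s1.le, by rw [h1]; exact lerp_mem_edge u j t t0 t1.le⟩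
    have h3 : vert u j = vert u (i + 1) := by
      have := (next_iff i j).1 hn
      rw [← this, vert_succ]
    rw [h3] at h2
    have h4 : (1 - s) • (vert u i - vert u (i + 1)) = 0 := by
      have : (1 - s) • (vert u i - vert u (i + 1)) =
          ((1 - s) • vert u i + s • vert u (i + 1)) - vert u (i + 1) := by
        rw [smul_sub, sub_smul 1 s (vert u (i + 1)), one_smul]
        abel
      rw [this, h2, sub_self]
    rcases smul_eq_zero.1 h4 with h5 | h5
    · linarith
    · exact vert_ne ell_pos u i (sub_eq_zero.1 h5)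
  apply simple_of
  · intro i j hij s t s0 s1 t0 t1 heq
    have heq' : pt (PP u) i s = pt (PP u) j t := heq
    have n1 := key i j s t s0 s1 t0 t1 heq'
    have n2 := key j i t s t0 t1 s0 s1 heq'.symm
    rw [PP_lerp, PP_lerp] at heq'
    have h1 := PP_inj u _ _ heq'
    have h2 := hu1 i j hij n1 n2
    have m1 := lerp_mem_edge u i s s0 s1.le
    have m2 := lerp_mem_edge u j t t0 t1.le
    rw [← h1] at m2
    exact eq_empty_iff_forall_notMem.1 h2 _ ⟨m1, m2⟩
  · intro i heq
    have h1 : vert u i = vert u ((i + 1 : Fin 44) : ℕ) := PP_inj u _ _ heq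
    rw [vert_succ] at h1
    exact vert_ne ell_pos u i h1

theorem ell_sum : ∑ i, ell i = 768 := by
  have h : ∑ i, L0 i = 768 := by decide
  have : ((∑ i, L0 i : ℤ) : ℝ) = 768 := by rw [h]; norm_num
  rw [← this]
  push_cast
  rfl

theorem PP_low (u : Conf ell) (i : Fin 44) (s : ℝ) (h0 : 0 ≤ s) (h1 : s ≤ 1) :
    -768 ≤ (pt (PP u) i s).2.2 := by
  have key : ∀ k : ℕ, -768 ≤ (nrm (u.1 38 : E3) (u.1 39 : E3) (vert u k)).2.2 := by
    intro k
    show -768 ≤ -dt3 (u.1 39 : E3) (vert u k)
    have h2 : dt3 (u.1 39 : E3) (vert u k) ≤ 768 := by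
      rw [dt3_inner]
      refine (real_inner_le_norm _ _).trans ?_
      rw [norm_u, one_mul, ← ell_sum]
      exact vert_norm ell_pos u k
    linarith
  show -768 ≤ (1 - s) * (PP u i).2.2 + s * (PP u (i + 1)).2.2
  have k1 : -768 ≤ (PP u i).2.2 := key _
  have k2 : -768 ≤ (PP u (i + 1)).2.2 := key _
  nlinarith

theorem PP_cont : Continuous PP := by
  unfold PP nrm dt3 dd3 vert
  apply continuous_pi
  intro k
  have h : ∀ i : Fin 44, Continuous (fun u : Conf ell => (u.1 i : E3)) := fun i =>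
    continuous_subtype_val.comp ((continuous_apply i).comp continuous_subtype_val)
  have h' : ∀ (i : Fin 44) (j : Fin 3), Continuous (fun u : Conf ell => (u.1 i : E3) j) := by
    intro i j
    have := h i
    fun_prop
  have hv : Continuous (fun u : Conf ell => ∑ i : Fin 44, if (i : ℕ) < k then ell i • (u.1 i : E3) else 0) := by
    apply continuous_finsetSum
    intro i _
    split_ifs
    · have h5 := (h i).const_smul (ell i)
      exact h5
    · exact continuous_const
  have hv' : ∀ j : Fin 3, Continuous (fun u : Conf ell =>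
      (∑ i : Fin 44, if (i : ℕ) < k then ell i • (u.1 i : E3) else 0) j) := by
    intro j
    fun_prop
  have h380 := h' 38 0
  have h381 := h' 38 1
  have h382 := h' 38 2
  have h390 := h' 39 0
  have h391 := h' 39 1
  have h392 := h' 39 2
  have hv0 := hv' 0
  have hv1 := hv' 1
  have hv2 := hv' 2
  fun_prop

theorem PP_rot (u v : Conf ell) (h : SameRot u v) : PP u = PP v := by
  obtain ⟨A, hA, h⟩ := h
  funext k
  unfold PP
  rw [act_vert h, act_eq h 38, act_eq h 39, nrm_rot A hA]

/-- the normalized polygon as a function on the polygon space -/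
def PQ : PolySpace ell → Poly 43 := Quotient.lift PP (fun u v h => PP_rot u v h)

theorem PQ_cont : Continuous PQ := PP_cont.quotient_lift _

theorem PQ_mk (u : Conf ell) : PQ (cls u) = PP u := rfl

end

end H325Gr
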