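import Pool.Agent.H325Gr.Val

/-!
# Transport along paths in the complement
-/

set_option autoImplicit false

namespace H325Gr

open KN Filter Topology Set K2NONAB K3XGRP

variable {G : Type} [Group G] {l : List V}

theorem tr_symm {T : V → V → G} {x y : Cmp l} {p : Path x y} {v : G} (hp : Tr T p v) :
    Tr T p.symm v⁻¹ := by
  obtain ⟨u, hu0, hu1, hu⟩ := hp
  refine ⟨fun t => v⁻¹ * u (1 - t), by simp [hu1], by simp [hu0], ?_⟩
  intro t h0 h1
  have h2 := hu (1 - t) (by linarith) (by linarith)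
  have hc : Tendsto (fun s : ℝ => 1 - s) (𝓝 t) (𝓝 (1 - t)) :=
    (continuous_const.sub continuous_id).tendsto t
  filter_upwards [hc.eventually h2] with s hs a0 a1
  rw [Path.extend_symm_apply, Path.extend_symm_apply, hs (by linarith) (by linarith), mul_assoc]

theorem tr_exists {T : V → V → G} (hT : Flat (ps l)ᶜ T) {x y : Cmp l} (p : Path x y) :
    ∃ v, Tr T p v := by
  obtain ⟨u, hu0, hu⟩ := T_lift_proof G (ps l)ᶜ T hT (fun t => (p.extend t).1)
    (continuous_subtype_val.comp p.continuous_extend) (fun t _ _ => (p.extend t).2)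
  exact ⟨u 1, u, hu0, rfl, hu⟩

theorem tr_unique {T : V → V → G} (hT : Flat (ps l)ᶜ T) {x y : Cmp l} {p p' : Path x y}
    (hpp : p.Homotopic p') {v v' : G} (hp : Tr T p v) (hp' : Tr T p' v') : v = v' := by
  obtain ⟨u, hu0, hu1, hu⟩ := hp
  obtain ⟨u', hu0', hu1', hu'⟩ := hp'
  rw [← hu1, ← hu1']
  exact X_homot_proof T_lift_proof T_luniq_proof G l T hT x y p p' hpp u u' hu0 hu0' hu hu'

/-- pull back of a function of two points -/
def pb (T : V → V → G) (f : V → V) : V → V → G := fun a b => T (f a) (f b)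

theorem tr_congr {T : V → V → G} {f : V → V} {x y : Cmp l} {p : Path x y} {v : G}
    (hp : Tr T p v) (hf : ∀ t, f (p t).1 = (p t).1) : Tr (pb T f) p v := by
  obtain ⟨u, hu0, hu1, hu⟩ := hp
  refine ⟨u, hu0, hu1, fun t h0 h1 => ?_⟩
  filter_upwards [hu t h0 h1] with s hs a0 a1
  rw [hs a0 a1]
  unfold pb
  rw [Path.extend_apply _ ⟨h0, h1⟩, Path.extend_apply _ ⟨a0, a1⟩, hf, hf]

/-- a box -/
def Bx : Set V := {x | 0 ≤ x.1 ∧ x.1 ≤ 4 ∧ -4 ≤ x.2.1 ∧ x.2.1 ≤ 4 ∧ -1 ≤ x.2.2 ∧ x.2.2 ≤ 2}

theorem word_box (g : Gauge G) (w : List Dir) (hw : SAP w) (c : Z3) (A : List Dir)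
    (hA : ∀ l ∈ A.tails, mid (c + pos l) ∈ Bx) : ∀ e : Z3, e = c + pos A →
    ∃ p : Path (mc w hw c) (mc w hw e), Tr (TT g) p (hol g c A) ∧
      ∀ t, (p t).1 ∈ Bx := by
  induction A with
  | nil =>
    intro e he
    simp only [pos, add_zero] at he
    subst he
    refine ⟨Path.refl _, tr_refl _ (gtr_self g _), fun t => ?_⟩
    have := hA [] (by simp)
    rw [pos, add_zero] at this
    exact this
  | cons d A ih =>
    obtain ⟨p, hp, hb⟩ := ih (fun l hl => hA l (by simp at hl ⊢; exact Or.inr hl)) _ rfl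
    have h1 : mid (c + pos A) ∈ Bx := hA A (by simp)
    have h2 : mid (c + pos A + vec d) ∈ Bx := by
      have := hA (d :: A) (by simp)
      rw [pos, ← add_assoc] at this
      exact this
    intro e he
    have he' : e = c + pos A + vec d := by rw [he, pos, add_assoc]
    subst he'
    simp only [hol]
    refine ⟨p.trans (ed w hw _ d), tr_trans hp (tr_ed g w hw _ d), fun t => ?_⟩
    rw [Path.trans_apply]
    split_ifs with ht
    · exact hb _
    · show gam (c + pos A) d _ ∈ Bx
      set s : unitInterval := ⟨2 * (t : ℝ) - 1, _⟩ with hs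
      obtain ⟨s, hs0, hs1⟩ := s
      show gam (c + pos A) d s ∈ Bx
      have e : gam (c + pos A) d s = (1 - s) • mid (c + pos A) + s • mid (c + pos A + vec d) := by
        simp only [gam, mid, Prod.smul_mk, smul_eq_mul, Prod.mk_add_mk, Prod.fst_add, Prod.snd_add,
          Int.cast_add]
        ext
        · simp only; ring
        · simp only; ring
        · simp only; ring
      rw [e]
      obtain ⟨a1, a2, a3, a4, a5, a6⟩ := h1
      obtain ⟨b1, b2, b3, b4, b5, b6⟩ := h2
      refine ⟨?_, ?_, ?_, ?_, ?_, ?_⟩ <;>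
        simp only [Prod.fst_add, Prod.snd_add, Prod.smul_fst, Prod.smul_snd, smul_eq_mul] <;>
        nlinarith

end H325Gr
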