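import Pool.Agent.H325Gr.Lat
import Pool.Agent.H246K2.JLOOPS

set_option autoImplicit false

namespace H325Gr

open KN Filter Topology Set

def BB : List Dir := [.xm, .xm, .xm, .ym, .ym, .ym, .zm, .yp, .zp, .yp, .yp, .xp, .xp, .xp]

theorem gg1 (c : Z3) : gg.g1 c = 1 := rfl

theorem gg2e (c : Z3) (h : c.1 ≤ 0) : gg.g2 c =
    if cz (l1 ++ [.xm, .zp, .xp]) (c.1 + 1) (c.2.1 + 1) c.2.2 = 0 then 1 else Equiv.swap 0 1 := by
  have e : gg.g2 c = if c.1 ≤ (pos []).1 then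
      (mgauge (Equiv.swap (0 : Fin 3) 1) (l1 ++ [.xm, .zp, .xp])).g2 c
      else tgauge.g2 (c - pos [] - (1, 0, 0)) := rfl
  rw [e, if_pos (show c.1 ≤ (pos []).1 from h)]
  rfl

theorem gg3e (c : Z3) (h : c.1 ≤ 0) : gg.g3 c =
    if cy (l1 ++ [.xm, .zp, .xp]) (c.1 + 1) c.2.1 (c.2.2 + 1) = 0 then 1 else Equiv.swap 0 1 := by
  have e : gg.g3 c = if c.1 ≤ (pos []).1 then
      (mgauge (Equiv.swap (0 : Fin 3) 1) (l1 ++ [.xm, .zp, .xp])).g3 c
      else tgauge.g3 (c - pos [] - (1, 0, 0)) := rfl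
  rw [e, if_pos (show c.1 ≤ (pos []).1 from h)]
  rfl

theorem gg2a (k : ℤ) (h1 : -3 ≤ k) (h2 : k ≤ -1) : gg.g2 (0, -1, k) = 1 := by
  rw [gg2e _ le_rfl, if_pos]
  have : k = -3 ∨ k = -2 ∨ k = -1 := by omega
  rcases this with rfl | rfl | rfl <;> decide

theorem gg2b (k : ℤ) (h1 : -3 ≤ k) (h2 : k ≤ -1) : gg.g2 (-1, -1, k) = Equiv.swap 0 1 := by
  rw [gg2e _ (by norm_num), if_neg]
  have : k = -3 ∨ k = -2 ∨ k = -1 := by omega
  rcases this with rfl | rfl | rfl <;> decide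

theorem gg3 (i j k : ℤ) (hi : i = -1 ∨ i = 0) (hj : j = -1 ∨ j = 0) (h1 : -3 ≤ k) (h2 : k ≤ -2) :
    gg.g3 (i, j, k) = 1 := by
  rw [gg3e _ (by simp only; omega), if_pos]
  have : k = -3 ∨ k = -2 := by omega
  rcases hi with rfl | rfl <;> rcases hj with rfl | rfl <;> rcases this with rfl | rfl <;> decide

theorem hol2 : hol gg (0, -1, -3) [.zp, .zp] = 1 := by
  show (1 * gst gg _ _) * gst gg _ _ = 1
  have e1 : gst gg ((0, -1, -3) + pos []) .zp = 1 := gg3 0 (-1) (-3) (Or.inr rfl) (Or.inl rfl) (by norm_num) (by norm_num)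
  have e2 : gst gg ((0, -1, -3) + pos [.zp]) .zp = 1 := gg3 0 (-1) (-2) (Or.inr rfl) (Or.inl rfl) (by norm_num) (by norm_num)
  rw [e1, e2]
  simp


theorem hol_app {G : Type} [Group G] (g : Gauge G) (c : Z3) (A B : List Dir) :
    hol g c (A ++ B) = hol g c B * hol g (c + pos B) A := by
  induction A with
  | nil => simp [hol]
  | cons d A ih =>
    rw [List.cons_append, hol, ih, hol, mul_assoc]
    congr 3
    rw [add_assoc]
    congr 1
    clear ih
    induction A with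
    | nil => simp [pos]
    | cons e A ih => rw [List.cons_append, pos, pos, ih, add_assoc]

def B0 : List Dir := [.xm, .xm, .ym, .ym, .ym, .zm, .yp, .zp, .yp, .yp, .xp, .xp]

theorem holBB : hol gg (0, -1, -1) BB = hol tgauge (0, -1, -1) B0 := by
  have e : BB = .xm :: (B0 ++ [.xp]) := rfl
  rw [e, hol, hol_app]
  have e1 : hol gg (0, -1, -1) [.xp] = 1 := by
    show 1 * gg.g1 _ = 1
    rw [gg1, mul_one]
  have e2 : gst gg ((0, -1, -1) + pos (B0 ++ [.xp])) .xm = 1 := by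
    show (gg.g1 _)⁻¹ = 1
    rw [gg1, inv_one]
  rw [e1, e2, one_mul, mul_one]
  have e3 : ((0, -1, -1) : Z3) + pos [.xp] = pos [] + (1, -1, -1) := by decide
  have e4 : ((0, -1, -1) : Z3) = (1, -1, -1) - (1, 0, 0) := by decide
  rw [e3, e4]
  have h := K2JLOOPS.hol_jg (pos []) (l1 ++ .xm :: .zp :: .xp :: []) (1, -1, -1) B0 (by decide)
  exact h

theorem hol3 : Equiv.swap 0 1 * hol gg (0, -1, -1) BB ≠ hol gg (0, -1, -1) BB * Equiv.swap 0 1 := by
  rw [holBB]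
  simp [B0, hol, gst, tgauge, pos, vec, tel, tcov, trow]
  decide

end H325Gr
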